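import Pool.Agent.Work.MP_c5c797_nt.Vanish

open Complex
open scoped Real

namespace Pool.Agent.Work.MP_c5c797_nt

open EvenLattice

/-- standard basis vector -/
def bv (i : Fin 15) : Fin 15 → ℤ := fun j => if j = i then 1 else 0

theorem form_add_left (x y z : Fin 15 → ℤ) :
    L15.form (fun i => x i + y i) z = L15.form x z + L15.form y z := by
  unfold form
  rw [← Finset.sum_add_distrib]
  refine Finset.sum_congr rfl fun i _ => ?_
  rw [← Finset.sum_add_distrib]
  refine Finset.sum_congr rfl fun j _ => by ring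

theorem form_symm (x y : Fin 15 → ℤ) : L15.form x y = L15.form y x := by
  unfold form
  rw [Finset.sum_comm]
  refine Finset.sum_congr rfl fun i _ => Finset.sum_congr rfl fun j _ => ?_
  rw [L15.symm j i]
  ring

theorem root_mem (M N : AddSubgroup (Fin 15 → ℤ)) (h : IsCompl M N)
    (ho : ∀ x ∈ M, ∀ y ∈ N, L15.form x y = 0) (x : Fin 15 → ℤ) (hx : L15.form x x = 2) :
    x ∈ M ∨ x ∈ N := by
  have hx' : x ∈ M ⊔ N := by rw [h.sup_eq_top]; trivial
  obtain ⟨m, hm, n, hn, rfl⟩ := AddSubgroup.mem_sup.mp hx'
  have h1 : L15.form (m + n) (m + n) = L15.form m m + L15.form n n := by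
    have e1 : L15.form (m + n) (m + n) = L15.form m (m + n) + L15.form n (m + n) :=
      form_add_left m n (m + n)
    have e2 : L15.form m (m + n) = L15.form m m + L15.form m n := by
      rw [form_symm m (m + n), form_symm m m, form_symm m n]
      exact form_add_left m n m
    have e3 : L15.form n (m + n) = L15.form m n + L15.form n n := by
      rw [form_symm n (m + n)]
      exact form_add_left m n n
    rw [e1, e2, e3, ho m hm n hn]
    ring
  rw [h1] at hx
  by_cases hm0 : m = 0
  · right; rw [hm0, zero_add]; exact hn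
  by_cases hn0 : n = 0
  · left; rw [hn0, add_zero]; exact hm
  exfalso
  have p1 := form_pos_of_ne_zero m hm0
  have p2 := form_pos_of_ne_zero n hn0
  obtain ⟨r1, hr1⟩ := L15_form_even m
  obtain ⟨r2, hr2⟩ := L15_form_even n
  omega

theorem irr_aux (M N : AddSubgroup (Fin 15 → ℤ)) (h : IsCompl M N)
    (ho : ∀ x ∈ M, ∀ y ∈ N, L15.form x y = 0) (h2 : bv 2 ∈ M) : N = ⊥ := by
  -- all the last thirteen basis vectors lie in `M`
  have hf : ∀ i : Fin 13, bv i.succ.succ ∈ M := by
    intro i
    by_cases hi : i = 0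
    · subst hi; exact h2
    · have e1 : ∀ i : Fin 13, L15.form (bv i.succ.succ) (bv i.succ.succ) = 2 := by decide +kernel
      rcases root_mem M N h ho _ (e1 i) with h3 | h3
      · exact h3
      · exfalso
        have e2 : ∀ i : Fin 13, i ≠ 0 → L15.form (bv 2) (bv i.succ.succ) = 1 := by decide +kernel
        have := ho _ h2 _ h3
        rw [e2 i hi] at this
        exact absurd this (by decide)
  have h1 : bv 1 ∈ M := by
    have e1 : L15.form (bv 2 + bv 1) (bv 2 + bv 1) = 2 := by decide +kernel
    have e2 : L15.form (bv 3) (bv 2 + bv 1) = -1 := by decide +kernel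
    have h3 : bv 2 + bv 1 ∈ M := by
      rcases root_mem M N h ho _ e1 with h3 | h3
      · exact h3
      · exfalso
        have := ho _ (hf 1) _ h3
        have e3 : bv (Fin.succ (Fin.succ (1 : Fin 13))) = bv 3 := rfl
        rw [e3, e2] at this
        exact absurd this (by decide)
    have := M.sub_mem h3 h2
    simpa using this
  -- the root `r''`
  set S := ∑ i : Fin 13, bv i.succ.succ with hS
  have hSM : S ∈ M := M.sum_mem fun i _ => hf i
  set r : Fin 15 → ℤ := (2 : ℤ) • bv 0 - (7 : ℤ) • bv 1 - S with hr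
  have er : L15.form r r = 2 := by
    rw [hr, hS]
    decide +kernel
  have h0 : bv 0 ∈ M := by
    have h0' : bv 0 ∈ M ⊔ N := by rw [h.sup_eq_top]; trivial
    obtain ⟨m, hm, n, hn, hmn⟩ := AddSubgroup.mem_sup.mp h0'
    rcases root_mem M N h ho r er with h3 | h3
    · -- `2 n ∈ M ∩ N`
      have h4 : (2 : ℤ) • n ∈ M := by
        have : (2 : ℤ) • n = r + (7 : ℤ) • bv 1 + S - (2 : ℤ) • m := by
          rw [hr, ← hmn]
          simp only [smul_add]
          abel
        rw [this]
        exact M.sub_mem (M.add_mem (M.add_mem h3 (M.zsmul_mem h1 _)) hSM) (M.zsmul_mem hm _)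
      have h5 : (2 : ℤ) • n ∈ N := N.zsmul_mem hn _
      have h6 : (2 : ℤ) • n = 0 := by
        have := h.disjoint.le_bot (show (2 : ℤ) • n ∈ M ⊓ N from ⟨h4, h5⟩)
        simpa using this
      have h7 : n = 0 := by
        funext i
        have := congrFun h6 i
        simp only [Pi.smul_apply, smul_eq_mul, Pi.zero_apply] at this
        simp only [Pi.zero_apply]
        omega
      rw [h7, add_zero] at hmn
      rw [← hmn]; exact hm
    · exfalso
      have h4 : (2 : ℤ) • n - r ∈ M := by
        have : (2 : ℤ) • n - r = (7 : ℤ) • bv 1 + S - (2 : ℤ) • m := by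
          rw [hr, ← hmn]
          simp only [smul_add]
          abel
        rw [this]
        exact M.sub_mem (M.add_mem (M.zsmul_mem h1 _) hSM) (M.zsmul_mem hm _)
      have h5 : (2 : ℤ) • n - r ∈ N := N.sub_mem (N.zsmul_mem hn _) h3
      have h6 : (2 : ℤ) • n - r = 0 := by
        have := h.disjoint.le_bot (show (2 : ℤ) • n - r ∈ M ⊓ N from ⟨h4, h5⟩)
        simpa using this
      have h7 := congrFun h6 1
      have h8 : r 1 = -7 := by
        rw [hr, hS]
        decide +kernel
      simp only [Pi.sub_apply, Pi.smul_apply, smul_eq_mul, Pi.zero_apply, h8] at h7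
      omega
  have hall : ∀ i, bv i ∈ M := fin15_cases h0 h1 hf
  have htop : M = ⊤ := by
    rw [eq_top_iff]
    intro x _
    have hx : x = ∑ i, x i • bv i := by
      funext j
      simp [Finset.sum_apply, bv]
    rw [hx]
    exact M.sum_mem fun i _ => M.zsmul_mem (hall i) _
  have := h.disjoint
  rw [htop, disjoint_comm, disjoint_top] at this
  exact this

theorem L15_irreducible : L15.Irreducible := by
  intro M N h ho
  have e1 : L15.form (bv 2) (bv 2) = 2 := by decide +kernel
  rcases root_mem M N h ho _ e1 with h2 | h2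
  · right; exact irr_aux M N h ho h2
  · left
    refine irr_aux N M h.symm (fun x hx y hy => ?_) h2
    rw [form_symm]
    exact ho y hy x hx

/-- a dual vector outside the lattice -/
noncomputable def ell0 : Fin 15 → ℝ :=
  fun i => if i = 0 then 1 else if i = 1 then -3 else if i = 2 then 1 / 2 else -1 / 2

theorem ell0_mem : ell0 ∈ L15.dual := by
  intro x
  refine ⟨x 0 + x 2, ?_⟩
  rw [L15_form]
  have h1 : S13 ell0 = -11 / 2 := by
    simp [S13, ell0, Fin.sum_univ_succ]
    norm_num
  have h2 : D13 ell0 (fun i => (x i : ℝ)) = x 2 - (1 / 2) * S13 (fun i => (x i : ℝ)) := by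
    simp [D13, S13, ell0, Fin.sum_univ_succ]
    ring
  rw [h1, h2]
  simp [ell0]
  ring

theorem L15_not_unimodular : ¬ L15.Unimodular := by
  intro h
  obtain ⟨x, hx⟩ := h ell0 ell0_mem
  have h2 := hx 2
  simp only [ell0] at h2
  have h3 : (1 : ℝ) / 2 = x 2 := by
    simpa using h2
  have h4 : (1 : ℝ) = ((2 * x 2 : ℤ) : ℝ) := by push_cast; linarith
  have h5 : (1 : ℤ) = 2 * x 2 := by exact_mod_cast h4
  omega

end Pool.Agent.Work.MP_c5c797_nt
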