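import Mathlib

open UpperHalfPlane hiding I
open Complex ModularForm SlashInvariantForm MatrixGroups Function.Periodic Manifold
open scoped Real

namespace Pool.Agent.Work.MP_c5c797_nt


/-- A function on the upper half plane given by an everywhere convergent power series in `q`
is holomorphic. -/
theorem mdiff_of_qseries (g : ℍ → ℂ) (c : ℕ → ℂ)
    (h : ∀ τ : ℍ, HasSum (fun m => c m • qParam 1 τ ^ m) (g τ)) : MDiff g := by
  rw [UpperHalfPlane.mdifferentiable_iff]
  have key : ∀ z : ℂ, ‖z‖ < 1 → DifferentiableAt ℂ (fun q => ∑' m, c m * q ^ m) z := by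
    intro z hz
    obtain ⟨r, hr1, hr2⟩ := exists_between hz
    have hr0 : 0 < r := lt_of_le_of_lt (norm_nonneg z) hr1
    have hsum : Summable (fun m => ‖c m‖ * r ^ m) := by
      -- point of the upper half plane with q = r
      have hy : 0 < -Real.log r / (2 * π) := by
        have := Real.log_neg hr0 hr2
        have h2 := Real.pi_pos
        exact div_pos (by linarith) (by linarith)
      have him : ((((-Real.log r / (2 * π)) : ℝ) : ℂ) * I).im = -Real.log r / (2 * π) := by
        rw [Complex.mul_I_im, Complex.ofReal_re]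
      let τ : ℍ := ⟨(((-Real.log r / (2 * π)) : ℝ) : ℂ) * I, by rw [him]; exact hy⟩
      have hq : ‖qParam 1 (τ : ℂ)‖ = r := by
        have h3 : (τ : ℂ) = (((-Real.log r / (2 * π)) : ℝ) : ℂ) * I := rfl
        rw [Function.Periodic.norm_qParam, h3]
        rw [him]
        have hpi := Real.pi_ne_zero
        have : -2 * π * (-Real.log r / (2 * π)) / 1 = Real.log r := by
          field_simp
        rw [this, Real.exp_log hr0]
      have := (h τ).summable.norm
      simpa [norm_smul, hq] using this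
    have hd : DifferentiableOn ℂ (fun q => ∑' m, c m * q ^ m) (Metric.ball 0 r) := by
      refine differentiableOn_tsum_of_summable_norm hsum (fun i => ?_) Metric.isOpen_ball ?_
      · fun_prop
      · intro i w hw
        rw [norm_mul, norm_pow]
        have : ‖w‖ ≤ r := by simpa using (mem_ball_zero_iff.mp hw).le
        gcongr
    exact hd.differentiableAt (Metric.isOpen_ball.mem_nhds (by simpa using hr1))
  intro z hz
  have h1 : DifferentiableAt ℂ (fun z => ∑' m, c m * (qParam 1 z) ^ m) z := by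
    have hq : ‖qParam 1 z‖ < 1 := norm_qParam_lt_one one_pos hz
    have := (key _ hq).comp z (f := fun z => qParam 1 z) (by
      unfold qParam
      fun_prop)
    simpa [Function.comp_def] using this
  refine (h1.congr_of_eventuallyEq ?_).differentiableWithinAt
  have : {z : ℂ | 0 < z.im} ∈ nhds z := isOpen_upperHalfPlaneSet.mem_nhds hz
  filter_upwards [this] with w hw
  have h3 := (h ⟨w, hw⟩).tsum_eq
  simp only [smul_eq_mul] at h3
  simp only [Function.comp_apply, ofComplex_apply_of_im_pos hw]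
  exact h3.symm

/-- Level one modular forms from `q`-series and the transformation under `S`. -/
theorem exists_modularForm (k : ℤ) (g : ℍ → ℂ) (c : ℕ → ℂ)
    (h : ∀ τ : ℍ, HasSum (fun m => c m • qParam 1 τ ^ m) (g τ))
    (hS : ∀ τ : ℍ, g (ModularGroup.S • τ) = (τ : ℂ) ^ k * g τ) :
    ∃ F : ModularForm 𝒮ℒ k, ∀ τ, F τ = g τ := by
  have hS' : g ∣[k] ModularGroup.S = g := by
    ext τ
    rw [ModularForm.SL_slash_apply, hS, ModularGroup.denom_S]
    rw [mul_comm ((τ:ℂ)^k), mul_assoc, ← zpow_add₀ (ne_zero τ)]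
    simp
  have hT' : g ∣[k] ModularGroup.T = g := by
    ext τ
    rw [ModularForm.SL_slash_apply]
    have h1 : denom ModularGroup.T τ = 1 := by
      simp [ModularGroup.denom_apply, ModularGroup.T]
    rw [h1, one_zpow, mul_one]
    have h2 := h (ModularGroup.T • τ)
    have h3 : qParam 1 ((ModularGroup.T • τ : ℍ) : ℂ) = qParam 1 (τ : ℂ) := by
      rw [UpperHalfPlane.modular_T_smul]
      have : (((1 : ℝ) +ᵥ τ : ℍ) : ℂ) = (τ : ℂ) + 1 := by
        simp [add_comm]
      rw [this]
      unfold qParam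
      rw [show 2 * (π : ℂ) * I * ((τ : ℂ) + 1) / ((1 : ℝ) : ℂ)
        = 2 * (π : ℂ) * I * (τ : ℂ) / ((1 : ℝ) : ℂ) + 2 * π * I by push_cast; ring]
      rw [Complex.exp_add, Complex.exp_two_pi_mul_I, mul_one]
    rw [h3] at h2
    exact h2.unique (h τ)
  refine ⟨{ toFun := g
            slash_action_eq' := ?_
            holo' := mdiff_of_qseries g c h
            bdd_at_cusps' := ?_ }, fun τ => rfl⟩
  · intro A hA
    obtain ⟨A, rfl⟩ := hA
    exact slash_action_generators_SL2Z hS' hT' A
  · intro d hd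
    rw [Subgroup.IsArithmetic.isCusp_iff_isCusp_SL2Z] at hd
    rw [OnePoint.isBoundedAt_iff_forall_SL2Z hd]
    intro γ _
    have := slash_action_generators_SL2Z hS' hT' γ
    show IsBoundedAtImInfty (g ∣[k] γ)
    rw [this]
    exact isBoundedAtImInfty_of_hasSum_qExpansion one_pos h



/-- rapid decay hypothesis for exponential sums -/
def RapidSum {ι : Type*} (A : ι → ℂ) (s : ι → ℝ) : Prop :=
  ∀ y : ℝ, Summable fun j => ‖A j‖ * Real.exp (s j * y)

theorem RapidSum.mul_s {ι : Type*} {A : ι → ℂ} {s : ι → ℝ} (H : RapidSum A s) :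
    RapidSum (fun j => A j * (2 * π * I * (s j : ℂ))) s := by
  intro y
  have h1 := ((H (y + 1)).add (H (y - 1))).mul_left (2 * π)
  refine Summable.of_nonneg_of_le (fun j => by positivity) (fun j => ?_) h1
  have hn : ‖A j * (2 * π * I * (s j : ℂ))‖ = ‖A j‖ * (2 * π * |s j|) := by
    rw [norm_mul, norm_mul, norm_mul, norm_mul]
    simp [abs_of_pos Real.pi_pos]
  rw [hn]
  have h2 : |s j| ≤ Real.exp (s j) + Real.exp (-s j) := by
    rcases le_total 0 (s j) with h | h
    · rw [abs_of_nonneg h]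
      have := Real.add_one_le_exp (s j)
      have := Real.exp_pos (-s j)
      linarith
    · rw [abs_of_nonpos h]
      have := Real.add_one_le_exp (-s j)
      have := Real.exp_pos (s j)
      linarith
  have h3 : Real.exp (s j * (y + 1)) = Real.exp (s j) * Real.exp (s j * y) := by
    rw [← Real.exp_add]; ring_nf
  have h4 : Real.exp (s j * (y - 1)) = Real.exp (-s j) * Real.exp (s j * y) := by
    rw [← Real.exp_add]; ring_nf
  rw [h3, h4]
  have h5 := Real.exp_pos (s j * y)
  have h6 := norm_nonneg (A j)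
  have h7 := Real.pi_pos
  calc ‖A j‖ * (2 * π * |s j|) * Real.exp (s j * y)
      ≤ ‖A j‖ * (2 * π * (Real.exp (s j) + Real.exp (-s j))) * Real.exp (s j * y) := by
        gcongr
    _ = _ := by ring

theorem norm_cexp_aux (s : ℝ) (w : ℂ) :
    ‖cexp (2 * π * I * (s : ℂ) * w)‖ = Real.exp (s * (-(2 * π * w.im))) := by
  rw [Complex.norm_exp]
  congr 1
  simp [mul_re, mul_im]
  ring

theorem RapidSum.summable {ι : Type*} {A : ι → ℂ} {s : ι → ℝ} (H : RapidSum A s) (w : ℂ) :
    Summable fun j => A j * cexp (2 * π * I * (s j : ℂ) * w) := by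
  refine Summable.of_norm ?_
  have := H (-(2 * π * w.im))
  refine this.congr fun j => ?_
  rw [norm_mul, norm_cexp_aux]

theorem RapidSum.hasDerivAt {ι : Type*} {A : ι → ℂ} {s : ι → ℝ} (H : RapidSum A s) (w : ℂ) :
    HasDerivAt (fun w => ∑' j, A j * cexp (2 * π * I * (s j : ℂ) * w))
      (∑' j, (A j * (2 * π * I * (s j : ℂ))) * cexp (2 * π * I * (s j : ℂ) * w)) w := by
  set R : ℝ := ‖w‖ + 1 with hR
  have hu := ((H.mul_s (2 * π * R)).add (H.mul_s (-(2 * π * R))))
  refine hasDerivAt_tsum_of_isPreconnected (t := Metric.ball (0 : ℂ) R) (y₀ := 0) (y := w)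
    hu Metric.isOpen_ball (convex_ball (0 : ℂ) R).isPreconnected
    (g := fun j w => A j * cexp (2 * π * I * (s j : ℂ) * w))
    (g' := fun j w => (A j * (2 * π * I * (s j : ℂ))) * cexp (2 * π * I * (s j : ℂ) * w))
    ?_ ?_ ?_ ?_ ?_
  · intro j y _
    have h1 : HasDerivAt (fun y : ℂ => 2 * π * I * (s j : ℂ) * y) (2 * π * I * (s j : ℂ)) y := by
      simpa using (hasDerivAt_id y).const_mul (2 * π * I * (s j : ℂ))
    have h2 := (h1.cexp).const_mul (A j)
    refine h2.congr_deriv ?_
    ring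
  · intro j y hy
    rw [norm_mul, norm_cexp_aux, ← mul_add]
    refine mul_le_mul_of_nonneg_left ?_ (norm_nonneg _)
    have hy' : |y.im| ≤ R := by
      have := Complex.abs_im_le_norm y
      have h2 : ‖y‖ < R := by simpa using hy
      linarith
    have hpi := Real.pi_pos
    have hle : s j * (-(2 * π * y.im)) ≤ max (s j * (2 * π * R)) (s j * (-(2 * π * R))) := by
      rw [abs_le] at hy'
      rcases le_total 0 (s j) with h | h
      · refine le_max_of_le_left ?_
        refine mul_le_mul_of_nonneg_left ?_ h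
        nlinarith
      · refine le_max_of_le_right ?_
        refine mul_le_mul_of_nonpos_left ?_ h
        nlinarith
    have h1 := Real.exp_pos (s j * (2 * π * R))
    have h2 := Real.exp_pos (s j * (-(2 * π * R)))
    rcases le_max_iff.mp hle with h | h
    · have := Real.exp_le_exp.mpr h
      linarith
    · have := Real.exp_le_exp.mpr h
      linarith
  · simp [hR]; positivity
  · exact H.summable 0
  · simp [hR]



theorem second_deriv_relation {P P1 P2 Q Q1 Q2 : ℂ → ℂ}
    (hP : ∀ w, HasDerivAt P (P1 w) w) (hP1 : ∀ w, HasDerivAt P1 (P2 w) w)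
    (hQ : ∀ w, HasDerivAt Q (Q1 w) w) (hQ1 : ∀ w, HasDerivAt Q1 (Q2 w) w)
    {t α : ℂ} (ht : t ≠ 0) (h : ∀ w, P (w / t) = cexp (α * w ^ 2) * Q w) :
    P2 0 = t ^ 2 * (Q2 0 + 2 * α * Q 0) := by
  have hdiv : ∀ w : ℂ, HasDerivAt (fun w : ℂ => w / t) (1 / t) w := fun w => by
    simpa using (hasDerivAt_id w).div_const t
  have hexp : ∀ w : ℂ, HasDerivAt (fun w : ℂ => cexp (α * w ^ 2))
      (cexp (α * w ^ 2) * (α * (2 * w))) w := fun w => by
    have h1 : HasDerivAt (fun w : ℂ => α * w ^ 2) (α * (2 * w)) w := by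
      simpa using ((hasDerivAt_id w).pow 2).const_mul α
    exact h1.cexp
  have e1 : ∀ w, P1 (w / t) * (1 / t) =
      cexp (α * w ^ 2) * (α * (2 * w)) * Q w + cexp (α * w ^ 2) * Q1 w := by
    intro w
    have hL : HasDerivAt (fun w => P (w / t)) (P1 (w / t) * (1 / t)) w :=
      (hP (w / t)).comp w (hdiv w)
    have hR : HasDerivAt (fun w => cexp (α * w ^ 2) * Q w)
      (cexp (α * w ^ 2) * (α * (2 * w)) * Q w + cexp (α * w ^ 2) * Q1 w) w :=
      (hexp w).mul (hQ w)
    have : (fun w => P (w / t)) = fun w => cexp (α * w ^ 2) * Q w := funext h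
    rw [this] at hL
    exact hL.unique hR
  have hL2 : HasDerivAt (fun w => P1 (w / t) * (1 / t)) (P2 (0 / t) * (1 / t) * (1 / t)) 0 :=
    ((hP1 (0 / t)).comp 0 (hdiv 0)).mul_const (1 / t)
  have hR2 : HasDerivAt (fun w => cexp (α * w ^ 2) * (α * (2 * w)) * Q w + cexp (α * w ^ 2) * Q1 w)
      (((cexp (α * 0 ^ 2) * (α * (2 * 0))) * (α * (2 * 0)) + cexp (α * 0 ^ 2) * (α * 2)) * Q 0
        + cexp (α * 0 ^ 2) * (α * (2 * 0)) * Q1 0
        + ((cexp (α * 0 ^ 2) * (α * (2 * 0))) * Q1 0 + cexp (α * 0 ^ 2) * Q2 0)) 0 := by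
    have hlin : HasDerivAt (fun w : ℂ => α * (2 * w)) (α * 2) 0 := by
      simpa using ((hasDerivAt_id (0 : ℂ)).const_mul 2).const_mul α
    exact (((hexp 0).mul hlin).mul (hQ 0)).add ((hexp 0).mul (hQ1 0))
  have : (fun w => P1 (w / t) * (1 / t)) =
      fun w => cexp (α * w ^ 2) * (α * (2 * w)) * Q w + cexp (α * w ^ 2) * Q1 w := funext e1
  rw [this] at hL2
  have h3 := hL2.unique hR2
  simp at h3
  field_simp at h3
  rw [h3]
  ring

end Pool.Agent.Work.MP_c5c797_nt
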