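import Pool.Agent.Work.MP_c5c797_nt.Lattice15

open Complex
open scoped Real

namespace Pool.Agent.Work.MP_c5c797_nt

theorem fin15_cases {P : Fin 15 → Prop} (h0 : P 0) (h1 : P 1) (h2 : ∀ i : Fin 13, P i.succ.succ) :
    ∀ i, P i := by
  intro i
  refine Fin.cases h0 (fun i => ?_) i
  exact Fin.cases h1 (fun i => h2 i) i

/-- norm computation in `L15` -/
theorem L15_form {R : Type*} [CommRing R] (x y : Fin 15 → R) :
    L15.form x y =
      4 * x 0 * y 0 + x 0 * y 1 + x 1 * y 0 + 4 * x 1 * y 1 - 2 * x 1 * S13 y - 2 * y 1 * S13 x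
        + S13 x * S13 y + D13 x y := G15_form x y

theorem L15_form_even (x : Fin 15 → ℤ) : ∃ half : ℤ, L15.form x x = 2 * half := by
  have h1 : Even (S13 x * S13 x + D13 x x) := by
    have h2 : Even (D13 x x - S13 x) := by
      simp only [D13, S13, ← Finset.sum_sub_distrib]
      refine Finset.even_sum _ fun i _ => ?_
      have h5 : x i.succ.succ * x i.succ.succ - x i.succ.succ =
          x i.succ.succ * (x i.succ.succ - 1) := by ring
      rw [h5]
      exact Int.even_mul_pred_self _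
    have h3 : Even (S13 x * (S13 x + 1)) := Int.even_mul_succ_self (S13 x)
    have h4 : S13 x * S13 x + D13 x x = S13 x * (S13 x + 1) + (D13 x x - S13 x) := by ring
    rw [h4]
    exact h3.add h2
  obtain ⟨r, hr⟩ := h1
  refine ⟨2 * x 0 * x 0 + x 0 * x 1 + 2 * x 1 * x 1 - 2 * x 1 * S13 x + r, ?_⟩
  rw [L15_form]
  linear_combination hr

/-- first integral coordinate `(ℓ, r'')` of a dual vector -/
def Y0 (m : Fin 15 → ℤ) : ℤ := 2 * m 0 - 7 * m 1 - S13 m

/-- four times the norm of the dual vector with integer coordinates `m` -/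
def T4 (m : Fin 15 → ℤ) : ℤ := 2 * (Y0 m) ^ 2 + (m 1) ^ 2 + ∑ i : Fin 13, (2 * m i.succ.succ + m 1) ^ 2

theorem T4_eq (m : Fin 15 → ℤ) :
    T4 m = 2 * (Y0 m) ^ 2 + 14 * (m 1) ^ 2 + 4 * m 1 * S13 m + 4 * D13 m m := by
  have : ∑ i : Fin 13, (2 * m i.succ.succ + m 1) ^ 2 =
      4 * D13 m m + 4 * m 1 * S13 m + 13 * (m 1) ^ 2 := by
    simp only [D13, S13, Finset.mul_sum]
    have : (13 : ℤ) * (m 1) ^ 2 = ∑ _i : Fin 13, (m 1) ^ 2 := by simp
    rw [this, ← Finset.sum_add_distrib, ← Finset.sum_add_distrib]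
    refine Finset.sum_congr rfl fun i _ => by ring
  rw [T4, this]
  ring

/-- the vector `m₀` of a minimal vector in the nontrivial coset -/
def m0v : Fin 15 → ℤ := fun i => if i = 0 ∨ i = 2 then 1 else 0

/-- another minimal vector -/
def m1v : Fin 15 → ℤ := fun i => if i = 0 ∨ i = 4 then 1 else 0

/-- the image `G x` -/
def Gx (x : Fin 15 → ℤ) : Fin 15 → ℤ := fun j => ∑ i, x i * L15.gram i j

theorem Gx_zero (x : Fin 15 → ℤ) : Gx x 0 = 4 * x 0 + x 1 := (G15_sum x).1
theorem Gx_one (x : Fin 15 → ℤ) : Gx x 1 = x 0 + 4 * x 1 - 2 * S13 x := (G15_sum x).2.1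
theorem Gx_succ (x : Fin 15 → ℤ) (j : Fin 13) :
    Gx x j.succ.succ = -2 * x 1 + S13 x + x j.succ.succ := (G15_sum x).2.2 j

theorem even_coset (m : Fin 15 → ℤ) (h : Even (S13 m)) : ∃ x : Fin 15 → ℤ, m = Gx x := by
  obtain ⟨s, hs⟩ := h
  set t : ℤ := 4 * m 1 - m 0 + s with ht
  set x : Fin 15 → ℤ := fun i => if i = 0 then m 1 - 2 * t else if i = 1 then s + 7 * t else m i + t
    with hx
  have hx0 : x 0 = m 1 - 2 * t := by simp [hx]
  have hx1 : x 1 = s + 7 * t := by simp [hx]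
  have hxi : ∀ i : Fin 13, x i.succ.succ = m i.succ.succ + t := by
    intro i
    have h1 : i.succ.succ ≠ (0 : Fin 15) := Fin.succ_ne_zero _
    have h2 : i.succ.succ ≠ (1 : Fin 15) := by
      intro h; exact Fin.succ_ne_zero i (Fin.succ_injective _ h)
    simp [hx, h1, h2]
  have hS : S13 x = S13 m + 13 * t := by
    simp only [S13, hxi, Finset.sum_add_distrib]
    simp
  refine ⟨x, funext (fin15_cases ?_ ?_ ?_)⟩
  · rw [Gx_zero, hx0, hx1]
    linear_combination -ht
  · rw [Gx_one, hx0, hx1, hS]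
    linear_combination 2 * hs
  · intro j
    rw [Gx_succ, hx1, hS, hxi]
    linear_combination -hs

theorem S13_m0v : S13 m0v = 1 := by decide
theorem S13_m1v : S13 m1v = 1 := by decide

theorem odd_coset (m : Fin 15 → ℤ) (h : Odd (S13 m)) :
    ∃ x : Fin 15 → ℤ, m = fun j => m0v j + Gx x j := by
  have h1 : Even (S13 (fun j => m j - m0v j)) := by
    have : S13 (fun j => m j - m0v j) = S13 m - S13 m0v := by
      simp only [S13, Finset.sum_sub_distrib]
    rw [this, S13_m0v]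
    exact h.sub_odd odd_one
  obtain ⟨x, hx⟩ := even_coset _ h1
  refine ⟨x, funext fun j => ?_⟩
  have := congrFun hx j
  linarith

theorem T4_coset (x : Fin 15 → ℤ) (half : ℤ) (hhalf : L15.form x x = 2 * half) :
    T4 (fun j => m0v j + Gx x j) = 6 + 8 * (∑ i, m0v i * x i + half) := by
  have hdot : ∑ i, m0v i * x i = x 0 + x 2 := by
    rw [sum15]
    have : S13 (fun i => m0v i * x i) = x 2 := by
      simp [S13, m0v, Fin.sum_univ_succ]
    rw [this]
    simp [m0v]
  rw [hdot, T4_eq]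
  rw [L15_form] at hhalf
  have e0 : m0v 0 + Gx x 0 = 1 + 4 * x 0 + x 1 := by rw [Gx_zero]; simp [m0v]; ring
  have e1 : m0v 1 + Gx x 1 = x 0 + 4 * x 1 - 2 * S13 x := by rw [Gx_one]; simp [m0v]
  have e2 : S13 (fun j => m0v j + Gx x j) = 1 - 26 * x 1 + 14 * S13 x := by
    have : S13 (fun j => m0v j + Gx x j) = S13 m0v + S13 (Gx x) := by
      simp only [S13, Finset.sum_add_distrib]
    rw [this, S13_m0v]
    have : S13 (Gx x) = - 26 * x 1 + 14 * S13 x := by
      have h1 : S13 (Gx x) = ∑ j : Fin 13, (-2 * x 1 + S13 x + x j.succ.succ) := by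
        simp only [S13]
        refine Finset.sum_congr rfl fun j _ => ?_
        rw [Gx_succ]; rfl
      rw [h1, Finset.sum_add_distrib]
      simp only [Finset.sum_const, Finset.card_univ, Fintype.card_fin, nsmul_eq_mul]
      have : ∑ j : Fin 13, x j.succ.succ = S13 x := rfl
      rw [this]
      push_cast
      ring
    rw [this]
    ring
  have e3 : D13 (fun j => m0v j + Gx x j) (fun j => m0v j + Gx x j) =
      13 * (-2 * x 1 + S13 x) ^ 2 + 2 * (-2 * x 1 + S13 x) * S13 x + D13 x x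
        + 2 * (-2 * x 1 + S13 x + x 2) + 1 := by
    have h1 : ∀ j : Fin 13, (m0v j.succ.succ + Gx x j.succ.succ) * (m0v j.succ.succ + Gx x j.succ.succ) =
        (-2 * x 1 + S13 x) ^ 2 + 2 * (-2 * x 1 + S13 x) * x j.succ.succ +
          x j.succ.succ * x j.succ.succ + (if j = 0 then (2 * (-2 * x 1 + S13 x + x 2) + 1) else 0) := by
      intro j
      rw [Gx_succ]
      by_cases hj : j = 0
      · subst hj
        have : m0v (Fin.succ (Fin.succ (0 : Fin 13))) = 1 := by decide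
        rw [this, if_pos rfl]
        have h2 : (Fin.succ (Fin.succ (0 : Fin 13)) : Fin 15) = 2 := rfl
        rw [h2]
        ring
      · have h3 : m0v (Fin.succ (Fin.succ j)) = 0 := by
          have h4 : ∀ j : Fin 13, j ≠ 0 → m0v (Fin.succ (Fin.succ j)) = 0 := by decide
          exact h4 j hj
        rw [h3, if_neg hj]
        ring
    simp only [D13]
    rw [Finset.sum_congr rfl fun j _ => h1 j]
    rw [Finset.sum_add_distrib, Finset.sum_add_distrib, Finset.sum_add_distrib, ← Finset.mul_sum]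
    have h5 : ∑ j : Fin 13, x j.succ.succ = S13 x := rfl
    rw [h5]
    simp
    ring
  simp only [Y0]
  rw [e0, e1, e2, e3]
  linear_combination 4 * hhalf

/-- the set of minimal vectors of the nontrivial coset -/
def MinSet : Set (Fin 15 → ℤ) := {m | Odd (S13 m) ∧ T4 m = 6}

theorem MinSet_props {m : Fin 15 → ℤ} (hm : m ∈ MinSet) :
    (Y0 m) ^ 2 = 1 ∧ (m 2 - m 3) ^ 2 ≤ 1 := by
  obtain ⟨hodd, hT⟩ := hm
  have hev : Even (m 1) := by
    by_contra hne
    rw [Int.not_even_iff_odd] at hne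
    have h1 : ∀ i : Fin 13, 1 ≤ (2 * m i.succ.succ + m 1) ^ 2 := by
      intro i
      have h2 : Odd (2 * m i.succ.succ + m 1) := by
        obtain ⟨r, hr⟩ := hne
        exact ⟨m i.succ.succ + r, by rw [hr]; ring⟩
      have h3 : 2 * m i.succ.succ + m 1 ≠ 0 := by
        intro h0
        rw [h0] at h2
        exact absurd h2 (by decide)
      have := pow_pos (abs_pos.mpr h3) 2
      rw [sq_abs] at this
      linarith
    have h4 : (13 : ℤ) ≤ ∑ i : Fin 13, (2 * m i.succ.succ + m 1) ^ 2 := by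
      calc (13 : ℤ) = ∑ _i : Fin 13, (1 : ℤ) := by simp
        _ ≤ _ := Finset.sum_le_sum fun i _ => h1 i
    unfold T4 at hT
    have := sq_nonneg (Y0 m)
    have := sq_nonneg (m 1)
    linarith
  obtain ⟨u, hu⟩ := hev
  have hT2 : (Y0 m) ^ 2 + 2 * u ^ 2 + 2 * ∑ i : Fin 13, (m i.succ.succ + u) ^ 2 = 3 := by
    unfold T4 at hT
    have h1 : ∑ i : Fin 13, (2 * m i.succ.succ + m 1) ^ 2 =
        4 * ∑ i : Fin 13, (m i.succ.succ + u) ^ 2 := by
      rw [Finset.mul_sum]
      refine Finset.sum_congr rfl fun i _ => ?_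
      rw [hu]; ring
    rw [h1, hu] at hT
    linarith
  have hnn : ∀ i : Fin 13, 0 ≤ (m i.succ.succ + u) ^ 2 := fun i => sq_nonneg _
  have hsum0 : 0 ≤ ∑ i : Fin 13, (m i.succ.succ + u) ^ 2 := Finset.sum_nonneg fun i _ => hnn i
  have hu0 := sq_nonneg u
  have hy0 := sq_nonneg (Y0 m)
  have hyle : (Y0 m) ^ 2 ≤ 3 := by linarith
  have hy1 : -1 ≤ Y0 m := by nlinarith
  have hy2 : Y0 m ≤ 1 := by nlinarith
  have hyne : Y0 m ≠ 0 := by
    intro h0
    rw [h0] at hT2
    omega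
  have hysq : (Y0 m) ^ 2 = 1 := by
    have : Y0 m = 1 ∨ Y0 m = -1 := by omega
    rcases this with h | h <;> rw [h] <;> norm_num
  refine ⟨hysq, ?_⟩
  have hsum1 : ∑ i : Fin 13, (m i.succ.succ + u) ^ 2 ≤ 1 := by
    rw [hysq] at hT2
    linarith
  have hpq : (m 2 + u) ^ 2 + (m 3 + u) ^ 2 ≤ 1 := by
    have h1 : ∑ i ∈ ({0, 1} : Finset (Fin 13)), (m i.succ.succ + u) ^ 2 ≤
        ∑ i : Fin 13, (m i.succ.succ + u) ^ 2 :=
      Finset.sum_le_sum_of_subset_of_nonneg (Finset.subset_univ _) fun i _ _ => hnn i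
    rw [Finset.sum_pair (by decide)] at h1
    have h2 : (Fin.succ (Fin.succ (0 : Fin 13)) : Fin 15) = 2 := rfl
    have h3 : (Fin.succ (Fin.succ (1 : Fin 13)) : Fin 15) = 3 := rfl
    rw [h2, h3] at h1
    linarith
  have h6 : (m 2 - m 3) ^ 2 ≤ 2 := by nlinarith [sq_nonneg (m 2 + u + (m 3 + u))]
  have h7 : -1 ≤ m 2 - m 3 := by nlinarith
  have h8 : m 2 - m 3 ≤ 1 := by nlinarith
  nlinarith

theorem m1v_mem : m1v ∈ MinSet := by
  refine ⟨?_, ?_⟩
  · rw [S13_m1v]; exact odd_one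
  · unfold T4 Y0
    decide

theorem T4_nonneg (m : Fin 15 → ℤ) : 0 ≤ T4 m := by
  unfold T4
  have : 0 ≤ ∑ i : Fin 13, (2 * m i.succ.succ + m 1) ^ 2 := Finset.sum_nonneg fun i _ => sq_nonneg _
  positivity

end Pool.Agent.Work.MP_c5c797_nt
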