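import Mathlib

open UpperHalfPlane hiding I
open Complex MatrixGroups
open scoped Real

namespace Pool.Agent.Work.MP_c5c797_nt

/-- An even positive definite lattice `L` of rank `n`, presented by its Gram matrix with respect
to a `ℤ`-basis: the group is `ℤⁿ = (Fin n → ℤ)` and the bilinear form is
`(x, y) = ∑ i j, x i * gram i j * y j`. -/
structure EvenLattice (n : ℕ) where
  /-- the Gram matrix -/
  gram : Matrix (Fin n) (Fin n) ℤ
  /-- the form is symmetric -/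
  symm : ∀ i j, gram i j = gram j i
  /-- the form is even (an integral form is even iff the diagonal entries of a Gram matrix are) -/
  even : ∀ i, Even (gram i i)
  /-- the form is positive definite on `L ⊗ ℝ` -/
  posDef : ∀ x : Fin n → ℝ, x ≠ 0 → 0 < ∑ i, ∑ j, x i * (gram i j : ℝ) * x j

namespace EvenLattice

variable {n : ℕ} (L : EvenLattice n)

/-- The bilinear form of `L`, extended to `L ⊗ R = (Fin n → R)`; it is used for
`R = ℤ` (the lattice itself), `R = ℝ` and `R = ℂ` (the `ℂ`-bilinear extension to `L_ℂ`). -/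
def form {R : Type*} [CommRing R] (x y : Fin n → R) : R :=
  ∑ i, ∑ j, x i * (L.gram i j : R) * y j

/-- The dual lattice `L' = {ℓ ∈ L ⊗ ℝ : (ℓ, x) ∈ ℤ for all x ∈ L}`. -/
def dual : Set (Fin n → ℝ) :=
  {ℓ | ∀ x : Fin n → ℤ, ∃ k : ℤ, L.form ℓ (fun i => (x i : ℝ)) = k}

/-- `L` is unimodular: `L' = L` (every vector of the dual lattice lies in `L = ℤⁿ`). -/
def Unimodular : Prop :=
  ∀ ℓ ∈ L.dual, ∃ x : Fin n → ℤ, ∀ i, ℓ i = x i

/-- `L` is irreducible: it is not the orthogonal direct sum of two nonzero sublattices. -/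
def Irreducible : Prop :=
  ∀ M N : AddSubgroup (Fin n → ℤ), IsCompl M N →
    (∀ x ∈ M, ∀ y ∈ N, L.form x y = 0) → M = ⊥ ∨ N = ⊥

/-- `φ : ℍ × L_ℂ → ℂ` is a weak Jacobi form of weight `k` and index one for `L`. -/
structure IsWeakJacobi (k : ℤ) (φ : ℍ → (Fin n → ℂ) → ℂ) : Prop where
  /-- `φ` is holomorphic on `ℍ × L_ℂ` -/
  holo : DifferentiableOn ℂ (fun p : ℂ × (Fin n → ℂ) => φ (ofComplex p.1) p.2)
    {p | 0 < p.1.im}
  /-- the transformation law under `SL₂(ℤ)` -/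
  modular : ∀ (γ : SL(2, ℤ)) (τ : ℍ) (z : Fin n → ℂ),
    φ (γ • τ) (fun i => z i / ((γ 1 0 : ℂ) * τ + (γ 1 1 : ℂ))) =
      ((γ 1 0 : ℂ) * τ + (γ 1 1 : ℂ)) ^ k *
        cexp (π * I * (γ 1 0 : ℂ) * L.form z z / ((γ 1 0 : ℂ) * τ + (γ 1 1 : ℂ))) * φ τ z
  /-- the transformation law under translations by `x τ + y`, `x, y ∈ L` -/
  elliptic : ∀ (x y : Fin n → ℤ) (τ : ℍ) (z : Fin n → ℂ),
    φ τ (fun i => z i + (x i : ℂ) * τ + (y i : ℂ)) =
      cexp (-(π * I * ((L.form x x : ℤ) : ℂ) * τ) - 2 * π * I * L.form (fun i => (x i : ℂ)) z) *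
        φ τ z
  /-- the Fourier expansion `∑_{m ≥ 0} ∑_{ℓ ∈ L'} f(m, ℓ) q^m ζ^ℓ` -/
  fourier : ∃ f : ℕ → L.dual → ℂ, ∀ (τ : ℍ) (z : Fin n → ℂ),
    HasSum (fun p : ℕ × L.dual => f p.1 p.2 *
      cexp (2 * π * I * ((p.1 : ℂ) * τ + L.form (fun i => ((p.2 : Fin n → ℝ) i : ℂ)) z))) (φ τ z)

/-- A homogeneous basis of `J^w_{*,L,1}` over `M_*`, indexed by `ι`: weak Jacobi forms `elt i` of
weight `weight i` such that every weak Jacobi form `ψ` of any weight `k` is, in exactly one way,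
a finite sum `∑ i, c i * elt i` with `c i` a modular form for `SL₂(ℤ)` of weight
`k - weight i`. -/
structure HomogeneousBasis (ι : Type) where
  /-- the weights -/
  weight : ι → ℤ
  /-- the basis elements -/
  elt : ι → ℍ → (Fin n → ℂ) → ℂ
  /-- each basis element is a weak Jacobi form of the given weight -/
  isWeakJacobi : ∀ i, L.IsWeakJacobi (weight i) (elt i)
  /-- unique homogeneous expansion -/
  existsUnique : ∀ (k : ℤ) (ψ : ℍ → (Fin n → ℂ) → ℂ), L.IsWeakJacobi k ψ →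
    ∃! c : (i : ι) → ModularForm 𝒮ℒ (k - weight i),
      {i | c i ≠ 0}.Finite ∧ ∀ τ z, ψ τ z = ∑ᶠ i, c i τ * elt i τ z

end EvenLattice

end Pool.Agent.Work.MP_c5c797_nt
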