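import Pool.Agent.Work.MP_c5c797_nt.Analytic

open UpperHalfPlane hiding I
open Complex ModularForm SlashInvariantForm MatrixGroups Function.Periodic Manifold
open scoped Real

namespace Pool.Agent.Work.MP_c5c797_nt

theorem qParam_pow_eq (n : ℕ) (τ : ℂ) :
    qParam 1 τ ^ n = cexp (2 * π * I * ((n : ℂ) * τ)) := by
  unfold qParam
  rw [← Complex.exp_nat_mul]
  congr 1
  push_cast
  ring

theorem fiber_hasSum {κ : Type*} (a : ℕ × κ → ℂ)
    (h : ∀ τ : ℍ, Summable fun p : ℕ × κ => a p * cexp (2 * π * I * ((p.1 : ℂ) * τ))) (τ : ℍ) :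
    HasSum (fun n => (∑' m, a (n, m)) • qParam 1 (τ : ℂ) ^ n)
      (∑' p, a p * cexp (2 * π * I * ((p.1 : ℂ) * τ))) := by
  refine (h τ).hasSum.prod_fiberwise fun n => ?_
  have h1 : Summable fun m => a (n, m) * cexp (2 * π * I * ((n : ℂ) * τ)) :=
    (h τ).prod_factor n
  have h2 : Summable fun m => a (n, m) := by
    have := h1.mul_right (cexp (2 * π * I * ((n : ℂ) * τ)))⁻¹
    simpa [mul_assoc, Complex.exp_ne_zero] using this
  have h3 := h2.hasSum.mul_right (cexp (2 * π * I * ((n : ℂ) * τ)))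
  rw [smul_eq_mul, qParam_pow_eq]
  exact h3

/-- a level one modular form of weight two vanishes -/
theorem weight_two_zero (F : ModularForm 𝒮ℒ 2) : F = 0 :=
  rank_zero_iff_forall_zero.mp levelOne_weight_two_rank_zero F

theorem E2_S (τ : ℍ) : EisensteinSeries.E2 (ModularGroup.S • τ) =
    (τ : ℂ) ^ 2 * EisensteinSeries.E2 τ - (6 * I / π) * τ := by
  have h := congrFun (EisensteinSeries.E2_slash_action ModularGroup.S) τ
  rw [ModularForm.SL_slash_apply, ModularGroup.denom_S] at h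
  simp only [Pi.sub_apply, Pi.smul_apply, smul_eq_mul, EisensteinSeries.D2_S] at h
  rw [riemannZeta_two] at h
  have hτ : (τ : ℂ) ≠ 0 := ne_zero τ
  have hpi : (π : ℂ) ≠ 0 := by exact_mod_cast Real.pi_ne_zero
  have h2 : EisensteinSeries.E2 (ModularGroup.S • τ) =
      (EisensteinSeries.E2 (ModularGroup.S • τ) * (τ : ℂ) ^ (-2 : ℤ)) * (τ : ℂ) ^ 2 := by
    rw [mul_assoc]
    have : (τ : ℂ) ^ (-2 : ℤ) * (τ : ℂ) ^ 2 = 1 := by
      rw [zpow_neg]
      have : (τ : ℂ) ^ (2 : ℤ) = (τ : ℂ) ^ 2 := by norm_cast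
      rw [this]
      field_simp
    rw [this, mul_one]
  rw [h2, h]
  field_simp

theorem weight_zero_moments {κ : Type*} (a : ℕ × κ → ℂ) (s : κ → ℝ) (c : ℝ)
    (hsum : ∀ (τ : ℍ) (w : ℂ), Summable fun p : ℕ × κ =>
      a p * cexp (2 * π * I * ((p.1 : ℂ) * τ + (s p.2 : ℂ) * w)))
    (hS : ∀ (τ : ℍ) (w : ℂ),
      ∑' p : ℕ × κ, a p * cexp (2 * π * I *
          ((p.1 : ℂ) * ((ModularGroup.S • τ : ℍ) : ℂ) + (s p.2 : ℂ) * (w / τ))) =
        cexp (π * I * c * w ^ 2 / τ) *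
          ∑' p : ℕ × κ, a p * cexp (2 * π * I * ((p.1 : ℂ) * τ + (s p.2 : ℂ) * w))) :
    (∀ n, n ≠ 0 → ∑' m, a (n, m) = 0) ∧
    (∑' m, a (0, m) * (s m : ℂ) ^ 2 = c / 12 * ∑' m, a (0, m)) ∧
    ((∑' m, a (0, m) = 0) → ∀ n, ∑' m, a (n, m) * (s m : ℂ) ^ 2 = 0) := by
  -- coefficients for fixed `τ`
  have hsplit : ∀ (τ w : ℂ) (p : ℕ × κ), a p * cexp (2 * π * I * ((p.1 : ℂ) * τ + (s p.2 : ℂ) * w))
      = (a p * cexp (2 * π * I * ((p.1 : ℂ) * τ))) * cexp (2 * π * I * (s p.2 : ℂ) * w) := by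
    intro τ w p
    rw [mul_assoc (a p), ← Complex.exp_add]
    congr 2
    ring
  have hrapid : ∀ τ : ℍ, RapidSum (fun p : ℕ × κ => a p * cexp (2 * π * I * ((p.1 : ℂ) * τ)))
      (fun p => s p.2) := by
    intro τ y
    have h1 := (hsum τ (((-y / (2 * π) : ℝ) : ℂ) * I)).norm
    refine h1.congr fun p => ?_
    rw [hsplit, norm_mul, norm_cexp_aux]
    congr 2
    rw [Complex.mul_I_im, Complex.ofReal_re]
    have := Real.pi_ne_zero
    field_simp
  have hrapid2 := fun τ => (hrapid τ).mul_s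
  have hrapid3 := fun τ => (hrapid τ).mul_s.mul_s
  -- the three functions
  set A : ℍ → ℕ × κ → ℂ := fun τ p => a p * cexp (2 * π * I * ((p.1 : ℂ) * τ)) with hA
  set P : ℍ → ℂ → ℂ := fun τ w => ∑' p, A τ p * cexp (2 * π * I * (s p.2 : ℂ) * w) with hPdef
  set P1 : ℍ → ℂ → ℂ := fun τ w => ∑' p, (A τ p * (2 * π * I * (s p.2 : ℂ))) *
    cexp (2 * π * I * (s p.2 : ℂ) * w) with hP1def
  set P2 : ℍ → ℂ → ℂ := fun τ w => ∑' p, (A τ p * (2 * π * I * (s p.2 : ℂ)) *
    (2 * π * I * (s p.2 : ℂ))) * cexp (2 * π * I * (s p.2 : ℂ) * w) with hP2def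
  have hP : ∀ τ w, HasDerivAt (P τ) (P1 τ w) w := fun τ w => (hrapid τ).hasDerivAt w
  have hP1 : ∀ τ w, HasDerivAt (P1 τ) (P2 τ w) w := fun τ w => (hrapid2 τ).hasDerivAt w
  have hPS : ∀ (τ : ℍ) (w : ℂ), P (ModularGroup.S • τ) (w / τ) =
      cexp (π * I * c / τ * w ^ 2) * P τ w := by
    intro τ w
    have h1 := hS τ w
    simp only [hsplit] at h1
    rw [show (π * I * c / τ * w ^ 2 : ℂ) = π * I * c * w ^ 2 / τ by ring]
    exact h1
  -- zeroth order
  have hg0 : ∀ τ : ℍ, HasSum (fun n => (∑' m, a (n, m)) • qParam 1 (τ : ℂ) ^ n) (P τ 0) := by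
    intro τ
    have h1 : ∀ τ : ℍ, Summable fun p : ℕ × κ => a p * cexp (2 * π * I * ((p.1 : ℂ) * τ)) := by
      intro τ
      simpa using (hrapid τ).summable 0
    have := fiber_hasSum a h1 τ
    simpa [hPdef, hA] using this
  have hg0S : ∀ τ : ℍ, P (ModularGroup.S • τ) 0 = (τ : ℂ) ^ (0 : ℤ) * P τ 0 := by
    intro τ
    have := hPS τ 0
    simpa using this
  obtain ⟨F0, hF0⟩ := exists_modularForm 0 (fun τ => P τ 0) _ hg0 hg0S
  obtain ⟨C, hC⟩ := ModularFormClass.levelOne_weight_zero_const F0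
  have hb : ∀ n, ∑' m, a (n, m) = if n = 0 then C else 0 := by
    intro n
    have h1 := ModularFormClass.qExpansion_coeff_unique (f := F0) one_pos
      one_mem_strictPeriods_SL (c := fun n => ∑' m, a (n, m))
      (fun τ => by rw [hF0]; exact hg0 τ) n
    have h2 := ModularFormClass.qExpansion_coeff_unique (f := F0) one_pos
      one_mem_strictPeriods_SL (c := fun n => if n = 0 then C else 0)
      (fun τ => by
        have : F0 τ = C := by rw [hC]; rfl
        rw [this]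
        have h3 := hasSum_ite_eq (0 : ℕ) C
        refine h3.congr_fun fun n => ?_
        split_ifs with h
        · subst h; simp
        · simp) n
    rw [h1, ← h2]
  have hP0C : ∀ τ, P τ 0 = C := by
    intro τ
    rw [← hF0, hC]; rfl
  -- second order
  have hg2 : ∀ τ : ℍ, HasSum (fun n => (∑' m, a (n, m) * (2 * π * I * (s m : ℂ)) *
      (2 * π * I * (s m : ℂ))) • qParam 1 (τ : ℂ) ^ n) (P2 τ 0) := by
    intro τ
    have h1 : ∀ τ : ℍ, Summable fun p : ℕ × κ => (a p * (2 * π * I * (s p.2 : ℂ)) *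
        (2 * π * I * (s p.2 : ℂ))) * cexp (2 * π * I * ((p.1 : ℂ) * τ)) := by
      intro τ
      have h2 := (hrapid3 τ).summable 0
      simp only [mul_zero, Complex.exp_zero, mul_one] at h2
      refine h2.congr fun p => ?_
      ring
    have h3 := fiber_hasSum (fun p => a p * (2 * π * I * (s p.2 : ℂ)) *
        (2 * π * I * (s p.2 : ℂ))) h1 τ
    have h4 : P2 τ 0 = ∑' p : ℕ × κ, (a p * (2 * π * I * (s p.2 : ℂ)) *
        (2 * π * I * (s p.2 : ℂ))) * cexp (2 * π * I * ((p.1 : ℂ) * τ)) := by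
      simp only [hP2def, mul_zero, Complex.exp_zero, mul_one]
      refine tsum_congr fun p => ?_
      simp only [hA]
      ring
    rw [h4]
    exact h3
  have hg2S : ∀ τ : ℍ, P2 (ModularGroup.S • τ) 0 =
      (τ : ℂ) ^ 2 * P2 τ 0 + 2 * π * I * c * C * τ := by
    intro τ
    have h1 := second_deriv_relation (hP (ModularGroup.S • τ)) (hP1 (ModularGroup.S • τ))
      (hP τ) (hP1 τ) (ne_zero τ) (hPS τ)
    rw [h1, hP0C]
    have := ne_zero τ
    field_simp
  -- subtract the quasi-modular part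
  set κ2 : ℂ := π ^ 2 * c * C / 3 with hκ2
  have hgE : ∀ τ : ℍ, HasSum (fun n => ((∑' m, a (n, m) * (2 * π * I * (s m : ℂ)) *
      (2 * π * I * (s m : ℂ))) + κ2 * (if n = 0 then 1 else -24 * (ArithmeticFunction.sigma 1 n : ℂ))) •
      qParam 1 (τ : ℂ) ^ n) (P2 τ 0 + κ2 * EisensteinSeries.E2 τ) := by
    intro τ
    have h1 := EisensteinSeries.hasSum_qExpansion_E2 (z := τ)
    have h2 := (hg2 τ).add (h1.mul_left κ2)
    refine h2.congr_fun fun n => ?_
    have h3 : cexp (2 * π * I * τ) = qParam 1 (τ : ℂ) := by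
      simp [qParam]
    simp only [smul_eq_mul, h3]
    ring
  have hgES : ∀ τ : ℍ, (P2 (ModularGroup.S • τ) 0 + κ2 * EisensteinSeries.E2 (ModularGroup.S • τ))
      = (τ : ℂ) ^ (2 : ℤ) * (P2 τ 0 + κ2 * EisensteinSeries.E2 τ) := by
    intro τ
    rw [hg2S, E2_S]
    have hz : (τ : ℂ) ^ (2 : ℤ) = (τ : ℂ) ^ 2 := by norm_cast
    have hpi : (π : ℂ) ≠ 0 := by exact_mod_cast Real.pi_ne_zero
    rw [hz, hκ2]
    field_simp
    ring
  obtain ⟨F2, hF2⟩ := exists_modularForm 2 (fun τ => P2 τ 0 + κ2 * EisensteinSeries.E2 τ) _ hgE hgES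
  have hd : ∀ n, (∑' m, a (n, m) * (2 * π * I * (s m : ℂ)) *
      (2 * π * I * (s m : ℂ))) + κ2 * (if n = 0 then 1 else -24 * (ArithmeticFunction.sigma 1 n : ℂ)) = 0 := by
    intro n
    have h1 := ModularFormClass.qExpansion_coeff_unique (f := F2) one_pos
      one_mem_strictPeriods_SL (c := fun n => (∑' m, a (n, m) * (2 * π * I * (s m : ℂ)) *
      (2 * π * I * (s m : ℂ))) + κ2 * (if n = 0 then 1 else -24 * (ArithmeticFunction.sigma 1 n : ℂ)))
      (fun τ => by rw [hF2]; exact hgE τ) n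
    have h2 := ModularFormClass.qExpansion_coeff_unique (f := F2) one_pos
      one_mem_strictPeriods_SL (c := fun _ => 0)
      (fun τ => by rw [weight_two_zero F2]; simp) n
    rw [h1, ← h2]
  have hfac : ∀ n, (∑' m, a (n, m) * (2 * π * I * (s m : ℂ)) * (2 * π * I * (s m : ℂ))) =
      -(4 * π ^ 2) * ∑' m, a (n, m) * (s m : ℂ) ^ 2 := by
    intro n
    rw [← tsum_mul_left]
    refine tsum_congr fun m => ?_
    ring_nf
    rw [Complex.I_sq]
    ring
  have hpi : (π : ℂ) ≠ 0 := by exact_mod_cast Real.pi_ne_zero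
  refine ⟨fun n hn => by rw [hb n, if_neg hn], ?_, ?_⟩
  · have h1 := hd 0
    rw [hfac, hκ2, if_pos rfl] at h1
    rw [hb 0, if_pos rfl]
    have h2 : (4 * (π : ℂ) ^ 2) * (∑' m, a (0, m) * (s m : ℂ) ^ 2 - c / 12 * C) = 0 := by
      linear_combination -h1
    have h3 : (4 * (π : ℂ) ^ 2) ≠ 0 := mul_ne_zero (by norm_num) (pow_ne_zero 2 hpi)
    have := (mul_eq_zero.mp h2).resolve_left h3
    linear_combination this
  · intro h0 n
    have hC0 : C = 0 := by
      have := hb 0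
      rw [if_pos rfl] at this
      rw [← this, h0]
    have h1 := hd n
    rw [hfac, hκ2, hC0] at h1
    have h3 : -(4 * (π : ℂ) ^ 2) ≠ 0 := by
      simp
    simp only [mul_zero, zero_div, zero_mul, add_zero] at h1
    exact (mul_eq_zero.mp h1).resolve_left h3

end Pool.Agent.Work.MP_c5c797_nt
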