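import Mathlib

open UnitAddTorus Complex MeasureTheory

namespace Pool.Agent.Work.MP_c5c797_nt

section
noncomputable local instance : MeasureSpace UnitAddCircle := ⟨AddCircle.haarAddCircle⟩

local instance : Measure.IsAddHaarMeasure (volume : Measure UnitAddCircle) :=
  inferInstanceAs (Measure.IsAddHaarMeasure AddCircle.haarAddCircle)

local instance : IsProbabilityMeasure (volume : Measure UnitAddCircle) :=
  inferInstanceAs (IsProbabilityMeasure AddCircle.haarAddCircle)

/-- Uniqueness of the coefficients of an absolutely convergent multiple Fourier series. -/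
theorem torus_unique {d : Type*} [Fintype d] (c : (d → ℤ) → ℂ) (hc : Summable c)
    (h : ∀ x : d → ℝ, ∑' k, c k * cexp (2 * Real.pi * I * ∑ i, (k i : ℂ) * (x i : ℂ)) = 0) :
    ∀ n, c n = 0 := by
  intro n
  have hs : Summable (fun k : d → ℤ => c k • (mFourier k : C(UnitAddTorus d, ℂ))) := by
    refine Summable.of_norm ?_
    simpa [norm_smul, mFourier_norm] using hc.norm
  have hF : (∑' k : d → ℤ, c k • (mFourier k : C(UnitAddTorus d, ℂ))) = 0 := by
    ext x
    have hx : ∃ y : d → ℝ, x = fun i => (y i : UnitAddCircle) := by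
      refine ⟨fun i => (AddCircle.equivIoc 1 0 (x i)).1, ?_⟩
      funext i
      exact AddCircle.coe_equivIoc.symm
    obtain ⟨y, rfl⟩ := hx
    have h1 : (∑' k : d → ℤ, c k • (mFourier k : C(UnitAddTorus d, ℂ))) (fun i => (y i : UnitAddCircle))
        = ∑' k : d → ℤ, (c k • (mFourier k : C(UnitAddTorus d, ℂ))) (fun i => (y i : UnitAddCircle)) := by
      exact ((ContinuousMap.evalCLM ℂ (fun i => (y i : UnitAddCircle))).map_tsum hs)
    rw [h1]
    simp only [ContinuousMap.coe_zero, Pi.zero_apply]
    rw [← h y]
    refine tsum_congr fun k => ?_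
    simp only [ContinuousMap.coe_smul, Pi.smul_apply, smul_eq_mul, mFourier, ContinuousMap.coe_mk]
    congr 1
    rw [Finset.mul_sum, Complex.exp_sum]
    refine Finset.prod_congr rfl fun i _ => ?_
    rw [fourier_coe_apply]
    congr 1
    push_cast
    ring
  have hs2 : HasSum (fun k : d → ℤ => c k • (mFourierLp 2 k : Lp ℂ 2 (volume : Measure (UnitAddTorus d)))) 0 := by
    have := (ContinuousMap.toLp (E := ℂ) 2 (volume : Measure (UnitAddTorus d)) ℂ).hasSum hs.hasSum
    rw [hF, map_zero] at this
    simpa [Function.comp_def, mFourierLp] using this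
  have hs3 := (innerSL ℂ (mFourierLp 2 n : Lp ℂ 2 (volume : Measure (UnitAddTorus d)))).hasSum hs2
  simp only [map_zero, map_smul, smul_eq_mul, innerSL_apply_apply] at hs3
  have hon := (orthonormal_iff_ite.mp (orthonormal_mFourier (d := d))) n
  have hs4 : HasSum (fun k : d → ℤ => if k = n then c n else 0) (0 : ℂ) := by
    have he : (fun k : d → ℤ => if k = n then c n else 0) =
        fun b => c b * inner ℂ (mFourierLp 2 n : Lp ℂ 2 (volume : Measure (UnitAddTorus d)))
          (mFourierLp 2 b) := by
      funext k
      rw [hon k]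
      split_ifs with h1 h2 h2
      · subst h1; simp
      · exact absurd h1.symm h2
      · exact absurd h2.symm h1
      · simp
    rw [he]
    exact hs3
  exact (hasSum_ite_eq n (c n)).unique hs4
end
end Pool.Agent.Work.MP_c5c797_nt
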