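import Pool.Agent.Work.MP_c5c797_nt.Defs
import Pool.Agent.Work.MP_c5c797_nt.Torus
import Pool.Agent.Work.MP_c5c797_nt.Moments

open UpperHalfPlane hiding I
open Complex ModularForm SlashInvariantForm MatrixGroups Function.Periodic Manifold
open scoped Real

namespace Pool.Agent.Work.MP_c5c797_nt

/-- the point `t + i` of the upper half plane -/
noncomputable def ptI (t : ℝ) : ℍ := ⟨(t : ℂ) + I, by simp⟩

theorem double_unique {n : ℕ} (c : ℤ × (Fin n → ℤ) → ℂ)
    (hs : ∀ (τ : ℍ) (z : Fin n → ℂ), Summable fun p : ℤ × (Fin n → ℤ) =>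
      c p * cexp (2 * π * I * ((p.1 : ℂ) * τ + ∑ i, (p.2 i : ℂ) * z i)))
    (h : ∀ (τ : ℍ) (z : Fin n → ℂ), ∑' p : ℤ × (Fin n → ℤ),
      c p * cexp (2 * π * I * ((p.1 : ℂ) * τ + ∑ i, (p.2 i : ℂ) * z i)) = 0) :
    ∀ p, c p = 0 := by
  set e : (Option (Fin n) → ℤ) ≃ ℤ × (Fin n → ℤ) :=
    { toFun := fun k => (k none, fun i => k (some i))
      invFun := fun p o => Option.elim o p.1 p.2
      left_inv := fun k => by funext o; cases o <;> rfl
      right_inv := fun p => rfl } with he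
  have hterm : ∀ (k : Option (Fin n) → ℤ) (x : Option (Fin n) → ℝ),
      (c (e k) * cexp (2 * π * I * (((e k).1 : ℂ) * I))) *
        cexp (2 * Real.pi * I * ∑ i, (k i : ℂ) * (x i : ℂ)) =
      c (e k) * cexp (2 * π * I * (((e k).1 : ℂ) * (ptI (x none) : ℂ) +
        ∑ i, ((e k).2 i : ℂ) * ((fun i => (x (some i) : ℂ)) i))) := by
    intro k x
    rw [mul_assoc, ← Complex.exp_add]
    congr 2
    rw [Fintype.sum_option]
    simp only [he, ptI, Equiv.coe_fn_mk]
    ring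
  have key := torus_unique (fun k : Option (Fin n) → ℤ =>
      c (e k) * cexp (2 * π * I * (((e k).1 : ℂ) * I))) ?_ ?_
  · intro p
    have h1 := key (e.symm p)
    simp only [Equiv.apply_symm_apply] at h1
    exact (mul_eq_zero.mp h1).resolve_right (Complex.exp_ne_zero _)
  · have h1 := (e.summable_iff.mpr (hs (ptI 0) (fun _ => 0)))
    refine h1.congr fun k => ?_
    have h2 := hterm k (fun _ => 0)
    simp only [Function.comp_apply]
    simp only [ofReal_zero, mul_zero, Finset.sum_const_zero, Complex.exp_zero, mul_one] at h2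
    rw [h2]
    simp
  · intro x
    rw [← h (ptI (x none)) (fun i => (x (some i) : ℂ)), ← e.tsum_eq]
    refine tsum_congr fun k => ?_
    exact hterm k x

namespace EvenLattice

variable {n : ℕ} (L : EvenLattice n)

/-- the basis vector -/
theorem form_eq_dot {R : Type*} [CommRing R] (x y : Fin n → R) :
    L.form x y = ∑ j, (∑ i, x i * (L.gram i j : R)) * y j := by
  unfold form
  rw [Finset.sum_comm]
  refine Finset.sum_congr rfl fun j _ => ?_
  rw [Finset.sum_mul]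

theorem exists_toInt (ℓ : L.dual) : ∃ m : Fin n → ℤ, ∀ j, ∑ i, (ℓ : Fin n → ℝ) i * (L.gram i j : ℝ) = m j := by
  have h := ℓ.2
  have h1 : ∀ j, ∃ k : ℤ, ∑ i, (ℓ : Fin n → ℝ) i * (L.gram i j : ℝ) = k := by
    intro j
    obtain ⟨k, hk⟩ := h (fun i => if i = j then 1 else 0)
    refine ⟨k, ?_⟩
    rw [← hk, form_eq_dot]
    simp
  choose m hm using h1
  exact ⟨m, hm⟩

/-- the integer coordinates `((ℓ, b_j))_j` of a vector of the dual lattice -/
noncomputable def toInt (ℓ : L.dual) : Fin n → ℤ := (L.exists_toInt ℓ).choose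

theorem toInt_spec (ℓ : L.dual) (j : Fin n) :
    ∑ i, (ℓ : Fin n → ℝ) i * (L.gram i j : ℝ) = L.toInt ℓ j := (L.exists_toInt ℓ).choose_spec j

theorem toInt_injective : Function.Injective L.toInt := by
  intro ℓ ℓ' h
  by_contra hne
  have hne' : (fun i => (ℓ : Fin n → ℝ) i - (ℓ' : Fin n → ℝ) i) ≠ 0 := by
    intro h0
    apply hne
    apply Subtype.ext
    funext i
    have := congrFun h0 i
    simp only [Pi.zero_apply] at this
    linarith
  have h1 := L.posDef _ hne'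
  have h2 : ∑ i, ∑ j, ((ℓ : Fin n → ℝ) i - (ℓ' : Fin n → ℝ) i) * (L.gram i j : ℝ) *
      ((ℓ : Fin n → ℝ) j - (ℓ' : Fin n → ℝ) j) = 0 := by
    rw [Finset.sum_comm]
    refine Finset.sum_eq_zero fun j _ => ?_
    rw [← Finset.sum_mul]
    have : ∑ i, ((ℓ : Fin n → ℝ) i - (ℓ' : Fin n → ℝ) i) * (L.gram i j : ℝ) = 0 := by
      simp only [sub_mul, Finset.sum_sub_distrib, toInt_spec, h, sub_self]
    rw [this, zero_mul]
  linarith

theorem form_toInt (ℓ : L.dual) (z : Fin n → ℂ) :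
    L.form (fun i => ((ℓ : Fin n → ℝ) i : ℂ)) z = ∑ j, (L.toInt ℓ j : ℂ) * z j := by
  rw [form_eq_dot]
  refine Finset.sum_congr rfl fun j _ => ?_
  congr 1
  have := L.toInt_spec ℓ j
  have h2 : ((∑ i, (ℓ : Fin n → ℝ) i * (L.gram i j : ℝ) : ℝ) : ℂ) = ((L.toInt ℓ j : ℝ) : ℂ) := by
    rw [this]
  push_cast at h2
  simpa using h2

/-- Fourier coefficients indexed by `ℕ × ℤⁿ`. -/
theorem exists_coeff {k : ℤ} {φ : ℍ → (Fin n → ℂ) → ℂ} (h : L.IsWeakJacobi k φ) :
    ∃ a : ℕ × (Fin n → ℤ) → ℂ, ∀ (τ : ℍ) (z : Fin n → ℂ),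
      HasSum (fun p : ℕ × (Fin n → ℤ) => a p *
        cexp (2 * π * I * ((p.1 : ℂ) * τ + ∑ i, (p.2 i : ℂ) * z i))) (φ τ z) := by
  obtain ⟨f, hf⟩ := h.fourier
  set g : ℕ × L.dual → ℕ × (Fin n → ℤ) := fun p => (p.1, L.toInt p.2) with hg
  have hginj : Function.Injective g := by
    intro p q hpq
    simp only [hg, Prod.mk.injEq] at hpq
    exact Prod.ext hpq.1 (L.toInt_injective hpq.2)
  refine ⟨Function.extend g (fun p => f p.1 p.2) 0, fun τ z => ?_⟩
  rw [← hginj.hasSum_iff]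
  · refine (hf τ z).congr_fun fun p => ?_
    simp only [Function.comp_apply, hginj.extend_apply]
    rw [form_toInt]
  · intro p hp
    rw [Function.extend_apply' _ _ _ (by simpa using hp)]
    simp

/-- extension of the coefficients to `ℤ × ℤⁿ` by zero -/
noncomputable def ext0 {κ : Type*} (a : ℕ × κ → ℂ) (p : ℤ × κ) : ℂ :=
  if 0 ≤ p.1 then a (p.1.toNat, p.2) else 0

theorem ext0_neg {κ : Type*} (a : ℕ × κ → ℂ) (N : ℤ) (m : κ) (h : N < 0) : ext0 a (N, m) = 0 := by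
  simp [ext0, not_le.mpr h]

theorem ext0_nat {κ : Type*} (a : ℕ × κ → ℂ) (N : ℕ) (m : κ) : ext0 a ((N : ℤ), m) = a (N, m) := by
  simp [ext0]

theorem hasSum_ext0 {κ : Type*} (a : ℕ × κ → ℂ) (E : ℤ × κ → ℂ) (S : ℂ)
    (h : HasSum (fun p : ℕ × κ => a p * E ((p.1 : ℤ), p.2)) S) :
    HasSum (fun p : ℤ × κ => ext0 a p * E p) S := by
  set g : ℕ × κ → ℤ × κ := fun p => ((p.1 : ℤ), p.2) with hg
  have hginj : Function.Injective g := by
    intro p q hpq
    simp only [hg, Prod.mk.injEq, Nat.cast_inj] at hpq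
    exact Prod.ext hpq.1 hpq.2
  rw [← hginj.hasSum_iff]
  · refine h.congr_fun fun p => ?_
    simp only [Function.comp_apply, hg, ext0_nat]
  · rintro ⟨N, m⟩ hp
    have : N < 0 := by
      by_contra hN
      rw [not_lt] at hN
      exact hp ⟨(N.toNat, m), by simp [hg, Int.toNat_of_nonneg hN]⟩
    simp [ext0_neg a N m this]

/-- The relation between Fourier coefficients coming from the elliptic transformation law. -/
theorem coeff_relation {k : ℤ} {φ : ℍ → (Fin n → ℂ) → ℂ} (h : L.IsWeakJacobi k φ)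
    (a : ℕ × (Fin n → ℤ) → ℂ)
    (ha : ∀ (τ : ℍ) (z : Fin n → ℂ),
      HasSum (fun p : ℕ × (Fin n → ℤ) => a p *
        cexp (2 * π * I * ((p.1 : ℂ) * τ + ∑ i, (p.2 i : ℂ) * z i))) (φ τ z))
    (x : Fin n → ℤ) (half : ℤ) (hhalf : L.form x x = 2 * half) (N : ℤ) (m : Fin n → ℤ) :
    ext0 a (N, m) = ext0 a (N + ∑ i, m i * x i + half, fun j => m j + ∑ i, x i * L.gram i j) := by
  have ha' : ∀ (τ : ℍ) (z : Fin n → ℂ),
      HasSum (fun p : ℤ × (Fin n → ℤ) => ext0 a p *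
        cexp (2 * π * I * ((p.1 : ℂ) * τ + ∑ i, (p.2 i : ℂ) * z i))) (φ τ z) := by
    intro τ z
    refine hasSum_ext0 a (fun p => cexp (2 * π * I * ((p.1 : ℂ) * τ + ∑ i, (p.2 i : ℂ) * z i))) _ ?_
    simpa using ha τ z
  -- first reindexing
  set e1 : ℤ × (Fin n → ℤ) ≃ ℤ × (Fin n → ℤ) :=
    { toFun := fun p => (p.1 - ∑ i, p.2 i * x i, p.2)
      invFun := fun p => (p.1 + ∑ i, p.2 i * x i, p.2)
      left_inv := fun p => by simp
      right_inv := fun p => by simp } with he1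
  set e2 : ℤ × (Fin n → ℤ) ≃ ℤ × (Fin n → ℤ) :=
    { toFun := fun p => (p.1 + half, fun j => p.2 j + ∑ i, x i * L.gram i j)
      invFun := fun p => (p.1 - half, fun j => p.2 j - ∑ i, x i * L.gram i j)
      left_inv := fun p => by simp
      right_inv := fun p => by simp } with he2
  have hL : ∀ (τ : ℍ) (z : Fin n → ℂ), HasSum (fun p : ℤ × (Fin n → ℤ) => ext0 a (e1 p) *
      cexp (2 * π * I * ((p.1 : ℂ) * τ + ∑ i, (p.2 i : ℂ) * z i)))
      (φ τ (fun i => z i + (x i : ℂ) * τ + ((0 : ℤ) : ℂ))) := by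
    intro τ z
    have h1 := (e1.hasSum_iff).mpr (ha' τ (fun i => z i + (x i : ℂ) * τ + ((0 : ℤ) : ℂ)))
    refine h1.congr_fun fun p => ?_
    simp only [Function.comp_apply]
    congr 3
    simp only [he1, Equiv.coe_fn_mk]
    push_cast
    simp only [add_zero, mul_add, Finset.sum_add_distrib]
    have : ∑ i, (p.2 i : ℂ) * ((x i : ℂ) * τ) = (∑ i, (p.2 i : ℂ) * (x i : ℂ)) * τ := by
      rw [Finset.sum_mul]
      refine Finset.sum_congr rfl fun i _ => by ring
    rw [this]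
    ring
  have hR : ∀ (τ : ℍ) (z : Fin n → ℂ), HasSum (fun p : ℤ × (Fin n → ℤ) => ext0 a (e2 p) *
      cexp (2 * π * I * ((p.1 : ℂ) * τ + ∑ i, (p.2 i : ℂ) * z i)))
      (cexp (-(π * I * ((L.form x x : ℤ) : ℂ) * τ) - 2 * π * I * L.form (fun i => (x i : ℂ)) z) *
        φ τ z) := by
    intro τ z
    have h1 := ((e2.hasSum_iff).mpr (ha' τ z)).mul_left
      (cexp (-(π * I * ((L.form x x : ℤ) : ℂ) * τ) - 2 * π * I * L.form (fun i => (x i : ℂ)) z))
    refine h1.congr_fun fun p => ?_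
    simp only [Function.comp_apply]
    rw [mul_comm (cexp _) (_ * _), mul_assoc (ext0 a (e2 p)), ← Complex.exp_add]
    congr 2
    rw [hhalf, form_eq_dot]
    simp only [he2, Equiv.coe_fn_mk]
    push_cast
    simp only [add_mul, Finset.sum_add_distrib]
    ring
  have key := double_unique (fun p => ext0 a (e1 p) - ext0 a (e2 p)) ?_ ?_
  · have h1 := sub_eq_zero.mp (key (N + ∑ i, m i * x i, m))
    simpa [he1, he2] using h1
  · intro τ z
    have := (hL τ z).summable.sub (hR τ z).summable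
    refine this.congr fun p => ?_
    ring
  · intro τ z
    have h1 := (hL τ z).sub (hR τ z)
    rw [show φ τ (fun i => z i + (x i : ℂ) * τ + ((0 : ℤ) : ℂ)) =
      (cexp (-(π * I * ((L.form x x : ℤ) : ℂ) * τ) - 2 * π * I * L.form (fun i => (x i : ℂ)) z) *
        φ τ z) from h.elliptic x (fun _ => 0) τ z, sub_self] at h1
    refine (h1.congr_fun fun p => ?_).tsum_eq
    ring

/-- The moment relations for a weak Jacobi form of weight zero. -/
theorem moment_relation {φ : ℍ → (Fin n → ℂ) → ℂ} (h : L.IsWeakJacobi 0 φ)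
    (a : ℕ × (Fin n → ℤ) → ℂ)
    (ha : ∀ (τ : ℍ) (z : Fin n → ℂ),
      HasSum (fun p : ℕ × (Fin n → ℤ) => a p *
        cexp (2 * π * I * ((p.1 : ℂ) * τ + ∑ i, (p.2 i : ℂ) * z i))) (φ τ z))
    (v : Fin n → ℝ) :
    (∀ N, N ≠ 0 → ∑' m, a (N, m) = 0) ∧
    (∑' m, a (0, m) * ((∑ i, (m i : ℝ) * v i : ℝ) : ℂ) ^ 2 =
      (L.form v v : ℝ) / 12 * ∑' m, a (0, m)) ∧
    ((∑' m, a (0, m) = 0) →
      ∀ N, ∑' m, a (N, m) * ((∑ i, (m i : ℝ) * v i : ℝ) : ℂ) ^ 2 = 0) := by
  have hexp : ∀ (τ w : ℂ) (p : ℕ × (Fin n → ℤ)),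
      ((p.1 : ℂ) * τ + ∑ i, (p.2 i : ℂ) * (w * (v i : ℂ))) =
      ((p.1 : ℂ) * τ + ((∑ i, (p.2 i : ℝ) * v i : ℝ) : ℂ) * w) := by
    intro τ w p
    congr 1
    push_cast
    rw [Finset.sum_mul]
    refine Finset.sum_congr rfl fun i _ => by ring
  refine weight_zero_moments a (fun m => ∑ i, (m i : ℝ) * v i) (L.form v v) ?_ ?_
  · intro τ w
    have h1 := (ha τ (fun i => w * (v i : ℂ))).summable
    refine h1.congr fun p => ?_
    rw [hexp]
  · intro τ w
    have h1 := (ha τ (fun i => w * (v i : ℂ))).tsum_eq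
    have h2 := (ha (ModularGroup.S • τ) (fun i => (w / τ) * (v i : ℂ))).tsum_eq
    simp only [hexp] at h1 h2
    rw [h1, h2]
    have h3 := h.modular ModularGroup.S τ (fun i => w * (v i : ℂ))
    have h10 : ((ModularGroup.S : SL(2, ℤ)) 1 0 : ℂ) = 1 := by simp [ModularGroup.S]
    have h11 : ((ModularGroup.S : SL(2, ℤ)) 1 1 : ℂ) = 0 := by simp [ModularGroup.S]
    rw [h10, h11] at h3
    simp only [one_mul, add_zero, zpow_zero, mul_one] at h3
    have h4 : (fun i => w / (τ : ℂ) * (v i : ℂ)) = fun i => w * (v i : ℂ) / (τ : ℂ) := by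
      funext i; ring
    rw [h4, h3]
    congr 2
    have h5 : L.form (fun i => w * (v i : ℂ)) (fun i => w * (v i : ℂ)) =
        w ^ 2 * ((L.form v v : ℝ) : ℂ) := by
      unfold form
      push_cast
      rw [Finset.mul_sum]
      refine Finset.sum_congr rfl fun i _ => ?_
      rw [Finset.mul_sum]
      refine Finset.sum_congr rfl fun j _ => ?_
      ring
    rw [h5]
    ring

end EvenLattice

end Pool.Agent.Work.MP_c5c797_nt
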