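import Pool.Agent.Work.MP_c5c797_nt.Defs

open Complex
open scoped Real

namespace Pool.Agent.Work.MP_c5c797_nt

/-- The Gram matrix of a rank `15` even lattice of determinant `2`. -/
def G15 : Matrix (Fin 15) (Fin 15) ℤ := fun i j =>
  if i = 0 then (if j = 0 then 4 else if j = 1 then 1 else 0)
  else if i = 1 then (if j = 0 then 1 else if j = 1 then 4 else -2)
  else (if j = 0 then 0 else if j = 1 then -2 else if i = j then 2 else 1)

/-- sum of the last thirteen coordinates -/
def S13 {R : Type*} [AddCommMonoid R] (x : Fin 15 → R) : R := ∑ i : Fin 13, x i.succ.succ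

theorem sum15 {R : Type*} [CommRing R] (x : Fin 15 → R) : ∑ i, x i = x 0 + x 1 + S13 x := by
  rw [Fin.sum_univ_succ, Fin.sum_univ_succ]
  simp only [S13]
  rw [← add_assoc]
  rfl

theorem G15_sum {R : Type*} [CommRing R] (x : Fin 15 → R) :
    (∑ i, x i * (G15 i 0 : R) = 4 * x 0 + x 1) ∧
    (∑ i, x i * (G15 i 1 : R) = x 0 + 4 * x 1 - 2 * S13 x) ∧
    (∀ j : Fin 13, ∑ i, x i * (G15 i j.succ.succ : R) = -2 * x 1 + S13 x + x j.succ.succ) := by
  refine ⟨?_, ?_, ?_⟩
  · rw [sum15]
    have : S13 (fun i => x i * (G15 i 0 : R)) = 0 := by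
      refine Finset.sum_eq_zero fun i _ => ?_
      have h1 : i.succ.succ ≠ (0 : Fin 15) := Fin.succ_ne_zero _
      have h2 : i.succ.succ ≠ (1 : Fin 15) := by
        intro h; exact Fin.succ_ne_zero i (Fin.succ_injective _ h)
      simp [G15, h1, h2]
    rw [this]
    simp [G15]
    ring
  · rw [sum15]
    have : S13 (fun i => x i * (G15 i 1 : R)) = -2 * S13 x := by
      simp only [S13, Finset.mul_sum]
      refine Finset.sum_congr rfl fun i _ => ?_
      have h1 : i.succ.succ ≠ (0 : Fin 15) := Fin.succ_ne_zero _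
      have h2 : i.succ.succ ≠ (1 : Fin 15) := by
        intro h; exact Fin.succ_ne_zero i (Fin.succ_injective _ h)
      simp [G15, h1, h2]
      ring
    rw [this]
    simp [G15]
    ring
  · intro j
    rw [sum15]
    have hj1 : j.succ.succ ≠ (0 : Fin 15) := Fin.succ_ne_zero _
    have hj2 : j.succ.succ ≠ (1 : Fin 15) := by
      intro h; exact Fin.succ_ne_zero j (Fin.succ_injective _ h)
    have : S13 (fun i => x i * (G15 i j.succ.succ : R)) = S13 x + x j.succ.succ := by
      simp only [S13]
      have h3 : ∀ i : Fin 13, x i.succ.succ * (G15 i.succ.succ j.succ.succ : R) =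
          x i.succ.succ + if i = j then x j.succ.succ else 0 := by
        intro i
        have h1 : i.succ.succ ≠ (0 : Fin 15) := Fin.succ_ne_zero _
        have h2 : i.succ.succ ≠ (1 : Fin 15) := by
          intro h; exact Fin.succ_ne_zero i (Fin.succ_injective _ h)
        by_cases hij : i = j
        · subst hij
          simp [G15, h1, h2]
          ring
        · have h4 : i.succ.succ ≠ j.succ.succ := fun h =>
            hij (Fin.succ_injective _ (Fin.succ_injective _ h))
          simp [G15, h1, h2, hj1, hj2, h4, hij]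
      rw [Finset.sum_congr rfl fun i _ => h3 i, Finset.sum_add_distrib]
      simp
    rw [this]
    simp [G15, hj1, hj2]
    ring

/-- sum of the products of the last thirteen coordinates -/
def D13 {R : Type*} [CommRing R] (x y : Fin 15 → R) : R := ∑ i : Fin 13, x i.succ.succ * y i.succ.succ

theorem G15_form {R : Type*} [CommRing R] (x y : Fin 15 → R) :
    ∑ i, ∑ j, x i * (G15 i j : R) * y j =
      4 * x 0 * y 0 + x 0 * y 1 + x 1 * y 0 + 4 * x 1 * y 1 - 2 * x 1 * S13 y - 2 * y 1 * S13 x
        + S13 x * S13 y + D13 x y := by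
  rw [Finset.sum_comm]
  simp only [← Finset.sum_mul]
  rw [sum15]
  obtain ⟨h0, h1, h2⟩ := G15_sum x
  rw [h0, h1]
  have : S13 (fun j => (∑ i, x i * (G15 i j : R)) * y j) =
      (-2 * x 1 + S13 x) * S13 y + D13 x y := by
    simp only [S13, D13]
    simp only [h2]
    rw [Finset.mul_sum, ← Finset.sum_add_distrib]
    refine Finset.sum_congr rfl fun i _ => ?_
    simp only [S13]
    ring
  rw [this]
  ring

theorem sq_sum_13 (x : Fin 15 → ℝ) (t : ℝ) :
    ∑ i : Fin 13, (x i.succ.succ + t) ^ 2 = D13 x x + 2 * t * S13 x + 13 * t ^ 2 := by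
  simp only [D13, S13, Finset.mul_sum]
  have : (13 : ℝ) * t ^ 2 = ∑ _i : Fin 13, t ^ 2 := by simp
  rw [this, ← Finset.sum_add_distrib, ← Finset.sum_add_distrib]
  refine Finset.sum_congr rfl fun i _ => by ring

/-- The lattice: rank `15`, determinant `2`. -/
def L15 : EvenLattice 15 where
  gram := G15
  symm := by decide
  even := by decide
  posDef := by
    intro x hx
    rw [G15_form]
    have hsq : 4 * x 0 * x 0 + x 0 * x 1 + x 1 * x 0 + 4 * x 1 * x 1 - 2 * x 1 * S13 x
        - 2 * x 1 * S13 x + S13 x * S13 x + D13 x x =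
        (x 0) ^ 2 / 2 + ∑ i : Fin 13, (x i.succ.succ + x 0 / 2) ^ 2 +
          (2 * x 1 - S13 x + x 0 / 2) ^ 2 := by
      rw [sq_sum_13]
      ring
    rw [hsq]
    have hnn : 0 ≤ ∑ i : Fin 13, (x i.succ.succ + x 0 / 2) ^ 2 :=
      Finset.sum_nonneg fun i _ => sq_nonneg _
    by_contra hle
    rw [not_lt] at hle
    have h1 := sq_nonneg (x 0)
    have h2 := sq_nonneg (2 * x 1 - S13 x + x 0 / 2)
    have hx0 : x 0 = 0 := by
      have : (x 0) ^ 2 = 0 := by linarith
      exact pow_eq_zero_iff (two_ne_zero) |>.mp this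
    have hs0 : ∑ i : Fin 13, (x i.succ.succ + x 0 / 2) ^ 2 = 0 := by linarith
    have hxi : ∀ i : Fin 13, x i.succ.succ = 0 := by
      intro i
      have := (Finset.sum_eq_zero_iff_of_nonneg (fun i _ => sq_nonneg _)).mp hs0 i (Finset.mem_univ i)
      have := pow_eq_zero_iff (two_ne_zero) |>.mp this
      rw [hx0] at this
      linarith
    have hS : S13 x = 0 := Finset.sum_eq_zero fun i _ => hxi i
    have hx1 : x 1 = 0 := by
      have : (2 * x 1 - S13 x + x 0 / 2) ^ 2 = 0 := by linarith
      have := pow_eq_zero_iff (two_ne_zero) |>.mp this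
      rw [hx0, hS] at this
      linarith
    apply hx
    funext i
    refine Fin.cases hx0 (fun i => ?_) i
    refine Fin.cases hx1 (fun i => hxi i) i

end Pool.Agent.Work.MP_c5c797_nt
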