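import Pool.Agent.Work.MP_c5c797_nt.Moments

open UpperHalfPlane hiding I
open Complex ModularForm SlashInvariantForm MatrixGroups Function.Periodic Manifold
open scoped Real

namespace Pool.Agent.Work.MP_c5c797_nt

theorem deriv_step {P P1 R R1 : ℂ → ℂ} (hP : ∀ w, HasDerivAt P (P1 w) w)
    (hR : ∀ w, HasDerivAt R (R1 w) w) {t α : ℂ} (ht : t ≠ 0) {C : ℂ}
    (h : ∀ w, P (w / t) = C * (cexp (α * w ^ 2) * R w)) :
    ∀ w, P1 (w / t) = (C * t) * (cexp (α * w ^ 2) * (2 * α * w * R w + R1 w)) := by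
  intro w
  have hdiv : HasDerivAt (fun w : ℂ => w / t) (1 / t) w := by
    simpa using (hasDerivAt_id w).div_const t
  have hexp : HasDerivAt (fun w : ℂ => cexp (α * w ^ 2))
      (cexp (α * w ^ 2) * (α * (2 * w))) w := by
    have h1 : HasDerivAt (fun w : ℂ => α * w ^ 2) (α * (2 * w)) w := by
      simpa using ((hasDerivAt_id w).pow 2).const_mul α
    exact h1.cexp
  have hL : HasDerivAt (fun w => P (w / t)) (P1 (w / t) * (1 / t)) w :=
    (hP (w / t)).comp w hdiv
  have hRR : HasDerivAt (fun w => C * (cexp (α * w ^ 2) * R w))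
      (C * (cexp (α * w ^ 2) * (α * (2 * w)) * R w + cexp (α * w ^ 2) * R1 w)) w :=
    (hexp.mul (hR w)).const_mul C
  have : (fun w => P (w / t)) = fun w => C * (cexp (α * w ^ 2) * R w) := funext h
  rw [this] at hL
  have h3 := hL.unique hRR
  have h4 : P1 (w / t) = (P1 (w / t) * (1 / t)) * t := by field_simp
  rw [h4, h3]
  ring

theorem fourth_deriv_relation {P P1 P2 P3 P4 Q Q1 Q2 Q3 Q4 : ℂ → ℂ}
    (hP : ∀ w, HasDerivAt P (P1 w) w) (hP1 : ∀ w, HasDerivAt P1 (P2 w) w)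
    (hP2 : ∀ w, HasDerivAt P2 (P3 w) w) (hP3 : ∀ w, HasDerivAt P3 (P4 w) w)
    (hQ : ∀ w, HasDerivAt Q (Q1 w) w) (hQ1 : ∀ w, HasDerivAt Q1 (Q2 w) w)
    (hQ2 : ∀ w, HasDerivAt Q2 (Q3 w) w) (hQ3 : ∀ w, HasDerivAt Q3 (Q4 w) w)
    {t α C : ℂ} (ht : t ≠ 0) (h : ∀ w, P (w / t) = C * (cexp (α * w ^ 2) * Q w)) :
    P2 0 = C * t ^ 2 * (Q2 0 + 2 * α * Q 0) ∧
    P4 0 = C * t ^ 4 * (Q4 0 + 12 * α * Q2 0 + 12 * α ^ 2 * Q 0) := by
  have lin : ∀ (c : ℂ) (w : ℂ), HasDerivAt (fun w : ℂ => c * w) c w := fun c w => by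
    simpa using (hasDerivAt_id w).const_mul c
  have h1 := deriv_step hP hQ ht h
  have hR1 : ∀ w, HasDerivAt (fun w => 2 * α * w * Q w + Q1 w)
      ((2 * α * Q w + 2 * α * w * Q1 w) + Q2 w) w := fun w =>
    ((lin (2 * α) w).mul (hQ w)).add (hQ1 w)
  have h2 := deriv_step hP1 hR1 ht h1
  have hlinR1 : ∀ w, HasDerivAt (fun w => 2 * α * w * (2 * α * w * Q w + Q1 w) +
      ((2 * α * Q w + 2 * α * w * Q1 w) + Q2 w))
      ((2 * α * (2 * α * w * Q w + Q1 w) + 2 * α * w * ((2 * α * Q w + 2 * α * w * Q1 w) + Q2 w)) +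
       ((2 * α * Q1 w + (2 * α * Q1 w + 2 * α * w * Q2 w)) + Q3 w)) w := fun w =>
    ((lin (2 * α) w).mul (hR1 w)).add
      ((((hQ w).const_mul (2 * α)).add ((lin (2 * α) w).mul (hQ1 w))).add (hQ2 w))
  have h3 := deriv_step hP2 hlinR1 ht h2
  -- the next function and its derivative
  set R2 : ℂ → ℂ := fun w => 2 * α * w * (2 * α * w * Q w + Q1 w) +
      ((2 * α * Q w + 2 * α * w * Q1 w) + Q2 w) with hR2def
  set R2' : ℂ → ℂ := fun w =>
      ((2 * α * (2 * α * w * Q w + Q1 w) + 2 * α * w * ((2 * α * Q w + 2 * α * w * Q1 w) + Q2 w)) +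
       ((2 * α * Q1 w + (2 * α * Q1 w + 2 * α * w * Q2 w)) + Q3 w)) with hR2'def
  set R2'' : ℂ → ℂ := fun w =>
      ((2 * α * ((2 * α * Q w + 2 * α * w * Q1 w) + Q2 w)
        + (2 * α * ((2 * α * Q w + 2 * α * w * Q1 w) + Q2 w) + 2 * α * w *
          ((2 * α * Q1 w + (2 * α * Q1 w + 2 * α * w * Q2 w)) + Q3 w))) +
       ((2 * α * Q2 w + (2 * α * Q2 w + (2 * α * Q2 w + 2 * α * w * Q3 w))) + Q4 w)) with hR2''def
  have hR2d : ∀ w, HasDerivAt R2' (R2'' w) w := fun w =>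
    (((hR1 w).const_mul (2 * α)).add ((lin (2 * α) w).mul
      ((((hQ w).const_mul (2 * α)).add ((lin (2 * α) w).mul (hQ1 w))).add (hQ2 w)))).add
      ((((hQ1 w).const_mul (2 * α)).add (((hQ1 w).const_mul (2 * α)).add
        ((lin (2 * α) w).mul (hQ2 w)))).add (hQ3 w))
  have hR3 : ∀ w, HasDerivAt (fun w => 2 * α * w * R2 w + R2' w)
      ((2 * α * R2 w + 2 * α * w * R2' w) + R2'' w) w := fun w =>
    ((lin (2 * α) w).mul (hlinR1 w)).add (hR2d w)
  have h4 := deriv_step hP3 hR3 ht h3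
  constructor
  · have := h2 0
    simp at this
    rw [this]
    ring
  · have := h4 0
    simp only [hR2def, hR2'def, hR2''def] at this
    simp at this
    rw [this]
    ring


/-- Moment relations in negative even weight. -/
theorem weight_neg_moments {κ : Type*} (k : ℤ) (hk : k = -2 ∨ k < -2)
    (a : ℕ × κ → ℂ) (s : κ → ℝ) (c : ℝ)
    (hsum : ∀ (τ : ℍ) (w : ℂ), Summable fun p : ℕ × κ =>
      a p * cexp (2 * π * I * ((p.1 : ℂ) * τ + (s p.2 : ℂ) * w)))
    (hS : ∀ (τ : ℍ) (w : ℂ),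
      ∑' p : ℕ × κ, a p * cexp (2 * π * I *
          ((p.1 : ℂ) * ((ModularGroup.S • τ : ℍ) : ℂ) + (s p.2 : ℂ) * (w / τ))) =
        (τ : ℂ) ^ k * cexp (π * I * c * w ^ 2 / τ) *
          ∑' p : ℕ × κ, a p * cexp (2 * π * I * ((p.1 : ℂ) * τ + (s p.2 : ℂ) * w))) :
    (∀ n, ∑' m, a (n, m) = 0) ∧
    (∀ n, n ≠ 0 ∨ k ≠ -2 → ∑' m, a (n, m) * (s m : ℂ) ^ 2 = 0) ∧
    (k = -2 → ∑' m, a (0, m) * (s m : ℂ) ^ 4 = c / 2 * ∑' m, a (0, m) * (s m : ℂ) ^ 2) := by
  have hk0 : k < 0 := by rcases hk with h | h <;> omega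
  -- coefficients for fixed `τ`
  have hsplit : ∀ (τ w : ℂ) (p : ℕ × κ), a p * cexp (2 * π * I * ((p.1 : ℂ) * τ + (s p.2 : ℂ) * w))
      = (a p * cexp (2 * π * I * ((p.1 : ℂ) * τ))) * cexp (2 * π * I * (s p.2 : ℂ) * w) := by
    intro τ w p
    rw [mul_assoc (a p), ← Complex.exp_add]
    congr 2
    ring
  have hrapid : ∀ τ : ℍ, RapidSum (fun p : ℕ × κ => a p * cexp (2 * π * I * ((p.1 : ℂ) * τ)))
      (fun p => s p.2) := by
    intro τ y
    have h1 := (hsum τ (((-y / (2 * π) : ℝ) : ℂ) * I)).norm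
    refine h1.congr fun p => ?_
    rw [hsplit, norm_mul, norm_cexp_aux]
    congr 2
    rw [Complex.mul_I_im, Complex.ofReal_re]
    have := Real.pi_ne_zero
    field_simp
  have hrapid2 := fun τ => (hrapid τ).mul_s
  have hrapid3 := fun τ => (hrapid τ).mul_s.mul_s
  have hrapid4 := fun τ => (hrapid τ).mul_s.mul_s.mul_s
  have hrapid5 := fun τ => (hrapid τ).mul_s.mul_s.mul_s.mul_s
  set A : ℍ → ℕ × κ → ℂ := fun τ p => a p * cexp (2 * π * I * ((p.1 : ℂ) * τ)) with hA
  set P : ℍ → ℂ → ℂ := fun τ w => ∑' p, A τ p * cexp (2 * π * I * (s p.2 : ℂ) * w) with hPdef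
  set P1 : ℍ → ℂ → ℂ := fun τ w => ∑' p, (A τ p * (2 * π * I * (s p.2 : ℂ))) *
    cexp (2 * π * I * (s p.2 : ℂ) * w) with hP1def
  set P2 : ℍ → ℂ → ℂ := fun τ w => ∑' p, (A τ p * (2 * π * I * (s p.2 : ℂ)) *
    (2 * π * I * (s p.2 : ℂ))) * cexp (2 * π * I * (s p.2 : ℂ) * w) with hP2def
  set P3 : ℍ → ℂ → ℂ := fun τ w => ∑' p, (A τ p * (2 * π * I * (s p.2 : ℂ)) *
    (2 * π * I * (s p.2 : ℂ)) * (2 * π * I * (s p.2 : ℂ))) *
    cexp (2 * π * I * (s p.2 : ℂ) * w) with hP3def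
  set P4 : ℍ → ℂ → ℂ := fun τ w => ∑' p, (A τ p * (2 * π * I * (s p.2 : ℂ)) *
    (2 * π * I * (s p.2 : ℂ)) * (2 * π * I * (s p.2 : ℂ)) * (2 * π * I * (s p.2 : ℂ))) *
    cexp (2 * π * I * (s p.2 : ℂ) * w) with hP4def
  have hP : ∀ τ w, HasDerivAt (P τ) (P1 τ w) w := fun τ w => (hrapid τ).hasDerivAt w
  have hP1 : ∀ τ w, HasDerivAt (P1 τ) (P2 τ w) w := fun τ w => (hrapid2 τ).hasDerivAt w
  have hP2 : ∀ τ w, HasDerivAt (P2 τ) (P3 τ w) w := fun τ w => (hrapid3 τ).hasDerivAt w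
  have hP3 : ∀ τ w, HasDerivAt (P3 τ) (P4 τ w) w := fun τ w => (hrapid4 τ).hasDerivAt w
  have hPS : ∀ (τ : ℍ) (w : ℂ), P (ModularGroup.S • τ) (w / τ) =
      (τ : ℂ) ^ k * (cexp (π * I * c / τ * w ^ 2) * P τ w) := by
    intro τ w
    have h1 := hS τ w
    simp only [hsplit] at h1
    rw [show (π * I * c / τ * w ^ 2 : ℂ) = π * I * c * w ^ 2 / τ by ring, ← mul_assoc]
    exact h1
  have hder := fun τ : ℍ => fourth_deriv_relation (hP (ModularGroup.S • τ))
    (hP1 (ModularGroup.S • τ)) (hP2 (ModularGroup.S • τ)) (hP3 (ModularGroup.S • τ))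
    (hP τ) (hP1 τ) (hP2 τ) (hP3 τ) (ne_zero τ) (hPS τ)
  -- zeroth order
  have hg0 : ∀ τ : ℍ, HasSum (fun n => (∑' m, a (n, m)) • qParam 1 (τ : ℂ) ^ n) (P τ 0) := by
    intro τ
    have h1 : ∀ τ : ℍ, Summable fun p : ℕ × κ => a p * cexp (2 * π * I * ((p.1 : ℂ) * τ)) := by
      intro τ
      simpa using (hrapid τ).summable 0
    have := fiber_hasSum a h1 τ
    simpa [hPdef, hA] using this
  have hg0S : ∀ τ : ℍ, P (ModularGroup.S • τ) 0 = (τ : ℂ) ^ k * P τ 0 := by
    intro τ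
    have := hPS τ 0
    simpa using this
  obtain ⟨F0, hF0⟩ := exists_modularForm k (fun τ => P τ 0) _ hg0 hg0S
  have hF00 : (F0 : ℍ → ℂ) = 0 := ModularFormClass.levelOne_neg_weight_eq_zero hk0 F0
  have hb : ∀ n, ∑' m, a (n, m) = 0 := by
    intro n
    have h1 := ModularFormClass.qExpansion_coeff_unique (f := F0) one_pos
      one_mem_strictPeriods_SL (c := fun n => ∑' m, a (n, m))
      (fun τ => by rw [hF0]; exact hg0 τ) n
    have h2 := ModularFormClass.qExpansion_coeff_unique (f := F0) one_pos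
      one_mem_strictPeriods_SL (c := fun _ => 0)
      (fun τ => by
        have : F0 τ = 0 := by rw [hF00]; rfl
        rw [this]
        simp) n
    rw [h1, ← h2]
  have hP0C : ∀ τ, P τ 0 = 0 := by
    intro τ
    rw [← hF0, hF00]; rfl
  -- second order
  have hg2 : ∀ τ : ℍ, HasSum (fun n => (∑' m, a (n, m) * (2 * π * I * (s m : ℂ)) *
      (2 * π * I * (s m : ℂ))) • qParam 1 (τ : ℂ) ^ n) (P2 τ 0) := by
    intro τ
    have h1 : ∀ τ : ℍ, Summable fun p : ℕ × κ => (a p * (2 * π * I * (s p.2 : ℂ)) *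
        (2 * π * I * (s p.2 : ℂ))) * cexp (2 * π * I * ((p.1 : ℂ) * τ)) := by
      intro τ
      have h2 := (hrapid3 τ).summable 0
      simp only [mul_zero, Complex.exp_zero, mul_one] at h2
      refine h2.congr fun p => ?_
      ring
    have h3 := fiber_hasSum (fun p => a p * (2 * π * I * (s p.2 : ℂ)) *
        (2 * π * I * (s p.2 : ℂ))) h1 τ
    have h4 : P2 τ 0 = ∑' p : ℕ × κ, (a p * (2 * π * I * (s p.2 : ℂ)) *
        (2 * π * I * (s p.2 : ℂ))) * cexp (2 * π * I * ((p.1 : ℂ) * τ)) := by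
      simp only [hP2def, mul_zero, Complex.exp_zero, mul_one]
      refine tsum_congr fun p => ?_
      simp only [hA]
      ring
    rw [h4]
    exact h3
  have hfac : ∀ n, (∑' m, a (n, m) * (2 * π * I * (s m : ℂ)) * (2 * π * I * (s m : ℂ))) =
      -(4 * π ^ 2) * ∑' m, a (n, m) * (s m : ℂ) ^ 2 := by
    intro n
    rw [← tsum_mul_left]
    refine tsum_congr fun m => ?_
    ring_nf
    rw [Complex.I_sq]
    ring
  have hpi : (π : ℂ) ≠ 0 := by exact_mod_cast Real.pi_ne_zero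
  have hpi2 : -(4 * (π : ℂ) ^ 2) ≠ 0 := by simp
  have hg2S : ∀ τ : ℍ, P2 (ModularGroup.S • τ) 0 = (τ : ℂ) ^ (k + 2) * P2 τ 0 := by
    intro τ
    have h1 := (hder τ).1
    rw [hP0C, mul_zero, add_zero] at h1
    rw [h1, zpow_add₀ (ne_zero τ)]
    norm_cast
  obtain ⟨F2, hF2⟩ := exists_modularForm (k + 2) (fun τ => P2 τ 0) _ hg2 hg2S
  rcases hk with hk2 | hk2
  · -- weight `-2`
    subst hk2
    have hF2' : ∃ C, (F2 : ℍ → ℂ) = Function.const _ C := by
      have : (-2 : ℤ) + 2 = 0 := by norm_num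
      revert F2
      rw [this]
      intro F2 _
      exact ModularFormClass.levelOne_weight_zero_const F2
    obtain ⟨C, hC⟩ := hF2'
    have hd : ∀ n, (∑' m, a (n, m) * (2 * π * I * (s m : ℂ)) *
      (2 * π * I * (s m : ℂ))) = if n = 0 then C else 0 := by
      intro n
      have h1 := ModularFormClass.qExpansion_coeff_unique (f := F2) one_pos
        one_mem_strictPeriods_SL (c := fun n => (∑' m, a (n, m) * (2 * π * I * (s m : ℂ)) *
      (2 * π * I * (s m : ℂ))))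
        (fun τ => by rw [hF2]; exact hg2 τ) n
      have h2 := ModularFormClass.qExpansion_coeff_unique (f := F2) one_pos
        one_mem_strictPeriods_SL (c := fun n => if n = 0 then C else 0)
        (fun τ => by
          have : F2 τ = C := by rw [hC]; rfl
          rw [this]
          have h3 := hasSum_ite_eq (0 : ℕ) C
          refine h3.congr_fun fun n => ?_
          split_ifs with h
          · subst h; simp
          · simp) n
      rw [h1, ← h2]
    have hP2C : ∀ τ, P2 τ 0 = C := by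
      intro τ
      rw [← hF2, hC]; rfl
    refine ⟨hb, ?_, ?_⟩
    · intro n hn
      have hn0 : n ≠ 0 := by
        rcases hn with h | h
        · exact h
        · exact absurd rfl h
      have h1 := hd n
      rw [hfac, if_neg hn0] at h1
      exact (mul_eq_zero.mp h1).resolve_left hpi2
    · intro _
      -- fourth order
      have hg4 : ∀ τ : ℍ, HasSum (fun n => (∑' m, a (n, m) * (2 * π * I * (s m : ℂ)) *
          (2 * π * I * (s m : ℂ)) * (2 * π * I * (s m : ℂ)) * (2 * π * I * (s m : ℂ))) •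
          qParam 1 (τ : ℂ) ^ n) (P4 τ 0) := by
        intro τ
        have h1 : ∀ τ : ℍ, Summable fun p : ℕ × κ => (a p * (2 * π * I * (s p.2 : ℂ)) *
            (2 * π * I * (s p.2 : ℂ)) * (2 * π * I * (s p.2 : ℂ)) * (2 * π * I * (s p.2 : ℂ))) *
            cexp (2 * π * I * ((p.1 : ℂ) * τ)) := by
          intro τ
          have h2 := (hrapid5 τ).summable 0
          simp only [mul_zero, Complex.exp_zero, mul_one] at h2
          refine h2.congr fun p => ?_
          ring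
        have h3 := fiber_hasSum (fun p => a p * (2 * π * I * (s p.2 : ℂ)) *
            (2 * π * I * (s p.2 : ℂ)) * (2 * π * I * (s p.2 : ℂ)) * (2 * π * I * (s p.2 : ℂ))) h1 τ
        have h4 : P4 τ 0 = ∑' p : ℕ × κ, (a p * (2 * π * I * (s p.2 : ℂ)) *
            (2 * π * I * (s p.2 : ℂ)) * (2 * π * I * (s p.2 : ℂ)) * (2 * π * I * (s p.2 : ℂ))) *
            cexp (2 * π * I * ((p.1 : ℂ) * τ)) := by
          simp only [hP4def, mul_zero, Complex.exp_zero, mul_one]
          refine tsum_congr fun p => ?_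
          simp only [hA]
          ring
        rw [h4]
        exact h3
      have hg4S : ∀ τ : ℍ, P4 (ModularGroup.S • τ) 0 =
          (τ : ℂ) ^ 2 * P4 τ 0 + 12 * π * I * c * C * τ := by
        intro τ
        have h1 := (hder τ).2
        rw [hP0C, hP2C, mul_zero, add_zero] at h1
        rw [h1]
        have hτ := ne_zero τ
        have h2 : (τ : ℂ) ^ (-2 : ℤ) * (τ : ℂ) ^ 4 = (τ : ℂ) ^ 2 := by
          have : (τ : ℂ) ^ (4 : ℕ) = (τ : ℂ) ^ (4 : ℤ) := by norm_cast
          rw [this, ← zpow_add₀ hτ]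
          norm_num
        rw [h2]
        field_simp
      set κ2 : ℂ := 2 * π ^ 2 * c * C with hκ2
      have hgE : ∀ τ : ℍ, HasSum (fun n => ((∑' m, a (n, m) * (2 * π * I * (s m : ℂ)) *
          (2 * π * I * (s m : ℂ)) * (2 * π * I * (s m : ℂ)) * (2 * π * I * (s m : ℂ))) +
          κ2 * (if n = 0 then 1 else -24 * (ArithmeticFunction.sigma 1 n : ℂ))) •
          qParam 1 (τ : ℂ) ^ n) (P4 τ 0 + κ2 * EisensteinSeries.E2 τ) := by
        intro τ
        have h1 := EisensteinSeries.hasSum_qExpansion_E2 (z := τ)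
        have h2 := (hg4 τ).add (h1.mul_left κ2)
        refine h2.congr_fun fun n => ?_
        have h3 : cexp (2 * π * I * τ) = qParam 1 (τ : ℂ) := by
          simp [qParam]
        simp only [smul_eq_mul, h3]
        ring
      have hgES : ∀ τ : ℍ, (P4 (ModularGroup.S • τ) 0 + κ2 * EisensteinSeries.E2 (ModularGroup.S • τ))
          = (τ : ℂ) ^ (2 : ℤ) * (P4 τ 0 + κ2 * EisensteinSeries.E2 τ) := by
        intro τ
        rw [hg4S, E2_S]
        have hz : (τ : ℂ) ^ (2 : ℤ) = (τ : ℂ) ^ 2 := by norm_cast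
        rw [hz, hκ2]
        field_simp
        ring
      obtain ⟨F4, hF4⟩ := exists_modularForm 2 (fun τ => P4 τ 0 + κ2 * EisensteinSeries.E2 τ) _ hgE hgES
      have he : (∑' m, a (0, m) * (2 * π * I * (s m : ℂ)) *
          (2 * π * I * (s m : ℂ)) * (2 * π * I * (s m : ℂ)) * (2 * π * I * (s m : ℂ))) + κ2 = 0 := by
        have h1 := ModularFormClass.qExpansion_coeff_unique (f := F4) one_pos
          one_mem_strictPeriods_SL (c := fun n => ((∑' m, a (n, m) * (2 * π * I * (s m : ℂ)) *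
          (2 * π * I * (s m : ℂ)) * (2 * π * I * (s m : ℂ)) * (2 * π * I * (s m : ℂ))) +
          κ2 * (if n = 0 then 1 else -24 * (ArithmeticFunction.sigma 1 n : ℂ))))
          (fun τ => by rw [hF4]; exact hgE τ) 0
        have h2 := ModularFormClass.qExpansion_coeff_unique (f := F4) one_pos
          one_mem_strictPeriods_SL (c := fun _ => 0)
          (fun τ => by rw [weight_two_zero F4]; simp) 0
        rw [if_pos rfl, mul_one] at h1
        rw [h1, ← h2]
      have hC0 := hd 0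
      rw [if_pos rfl, hfac] at hC0
      have hfac4 : (∑' m, a (0, m) * (2 * π * I * (s m : ℂ)) *
          (2 * π * I * (s m : ℂ)) * (2 * π * I * (s m : ℂ)) * (2 * π * I * (s m : ℂ))) =
          (16 * π ^ 4) * ∑' m, a (0, m) * (s m : ℂ) ^ 4 := by
        rw [← tsum_mul_left]
        refine tsum_congr fun m => ?_
        ring_nf
        rw [Complex.I_pow_four]
        ring
      rw [hfac4, hκ2, ← hC0] at he
      have h5 : (16 * (π : ℂ) ^ 4) * (∑' m, a (0, m) * (s m : ℂ) ^ 4 -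
          c / 2 * ∑' m, a (0, m) * (s m : ℂ) ^ 2) = 0 := by
        linear_combination he
      have h6 : (16 * (π : ℂ) ^ 4) ≠ 0 := mul_ne_zero (by norm_num) (pow_ne_zero 4 hpi)
      have := (mul_eq_zero.mp h5).resolve_left h6
      linear_combination this
  · -- weight `< -2`
    have hF20 : (F2 : ℍ → ℂ) = 0 := ModularFormClass.levelOne_neg_weight_eq_zero (by omega) F2
    have hd : ∀ n, (∑' m, a (n, m) * (2 * π * I * (s m : ℂ)) * (2 * π * I * (s m : ℂ))) = 0 := by
      intro n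
      have h1 := ModularFormClass.qExpansion_coeff_unique (f := F2) one_pos
        one_mem_strictPeriods_SL (c := fun n => (∑' m, a (n, m) * (2 * π * I * (s m : ℂ)) *
      (2 * π * I * (s m : ℂ))))
        (fun τ => by rw [hF2]; exact hg2 τ) n
      have h2 := ModularFormClass.qExpansion_coeff_unique (f := F2) one_pos
        one_mem_strictPeriods_SL (c := fun _ => 0)
        (fun τ => by
          have : F2 τ = 0 := by rw [hF20]; rfl
          rw [this]
          simp) n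
      rw [h1, ← h2]
    refine ⟨hb, ?_, ?_⟩
    · intro n _
      have h1 := hd n
      rw [hfac] at h1
      exact (mul_eq_zero.mp h1).resolve_left hpi2
    · intro h
      omega

end Pool.Agent.Work.MP_c5c797_nt
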