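import Pool.Agent.Work.MP_c5c797_nt.Fourier
import Pool.Agent.Work.MP_c5c797_nt.Cosets

open UpperHalfPlane hiding I
open Complex ModularForm SlashInvariantForm MatrixGroups Function.Periodic Manifold
open scoped Real

namespace Pool.Agent.Work.MP_c5c797_nt

open EvenLattice

theorem form_pos_of_ne_zero (x : Fin 15 → ℤ) (hx : x ≠ 0) : 0 < L15.form x x := by
  have h1 : (fun i => (x i : ℝ)) ≠ 0 := by
    intro h0
    apply hx
    funext i
    have := congrFun h0 i
    simpa using this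
  have h2 := L15.posDef _ h1
  have h3 : ((L15.form x x : ℤ) : ℝ) = ∑ i, ∑ j, (x i : ℝ) * (L15.gram i j : ℝ) * (x j : ℝ) := by
    unfold form
    push_cast
    rfl
  rw [← h3] at h2
  exact_mod_cast h2

theorem coeff_even {k : ℤ} {φ : ℍ → (Fin 15 → ℂ) → ℂ} (h : L15.IsWeakJacobi k φ)
    (a : ℕ × (Fin 15 → ℤ) → ℂ)
    (ha : ∀ (τ : ℍ) (z : Fin 15 → ℂ),
      HasSum (fun p : ℕ × (Fin 15 → ℤ) => a p *
        cexp (2 * π * I * ((p.1 : ℂ) * τ + ∑ i, (p.2 i : ℂ) * z i))) (φ τ z))
    (N : ℕ) (hN : ∀ N' < N, ∀ m, a (N', m) = 0) (m : Fin 15 → ℤ) (hm : m ≠ 0)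
    (he : Even (S13 m)) : a (N, m) = 0 := by
  obtain ⟨x, hx⟩ := even_coset m he
  obtain ⟨half, hhalf⟩ := L15_form_even x
  have hx0 : x ≠ 0 := by
    rintro rfl
    apply hm
    rw [hx]
    funext j
    simp [Gx]
  have hpos := form_pos_of_ne_zero x hx0
  have h1 := coeff_relation L15 h a ha x half hhalf ((N : ℤ) - half) 0
  have h2 : (fun j => (0 : Fin 15 → ℤ) j + ∑ i, x i * L15.gram i j) = m := by
    rw [hx]; funext j; simp [Gx]
  have h3 : (N : ℤ) - half + ∑ i, (0 : Fin 15 → ℤ) i * x i + half = N := by simp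
  rw [h2, h3, ext0_nat] at h1
  rw [← h1]
  rcases lt_or_ge ((N : ℤ) - half) 0 with h4 | h4
  · exact ext0_neg _ _ _ h4
  · obtain ⟨r, hr⟩ := Int.eq_ofNat_of_zero_le h4
    rw [hr]
    have : r < N := by
      have : (r : ℤ) < N := by rw [← hr]; linarith
      exact_mod_cast this
    have h5 := hN r this 0
    rw [← h5]
    exact ext0_nat a r 0

theorem coeff_odd {k : ℤ} {φ : ℍ → (Fin 15 → ℂ) → ℂ} (h : L15.IsWeakJacobi k φ)
    (a : ℕ × (Fin 15 → ℤ) → ℂ)
    (ha : ∀ (τ : ℍ) (z : Fin 15 → ℂ),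
      HasSum (fun p : ℕ × (Fin 15 → ℤ) => a p *
        cexp (2 * π * I * ((p.1 : ℂ) * τ + ∑ i, (p.2 i : ℂ) * z i))) (φ τ z))
    (N : ℕ) (hN : ∀ N' < N, ∀ m, a (N', m) = 0) (m : Fin 15 → ℤ)
    (ho : Odd (S13 m)) : (T4 m = 6 → a (N, m) = a (N, m0v)) ∧ (T4 m ≠ 6 → a (N, m) = 0) := by
  obtain ⟨x, hx⟩ := odd_coset m ho
  obtain ⟨half, hhalf⟩ := L15_form_even x
  have hT := T4_coset x half hhalf
  rw [← hx] at hT
  have hT0 := T4_nonneg m
  set D := ∑ i, m0v i * x i with hD
  have h1 := coeff_relation L15 h a ha x half hhalf ((N : ℤ) - (D + half)) m0v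
  have h2 : (fun j => m0v j + ∑ i, x i * L15.gram i j) = m := by
    rw [hx]; funext j; simp [Gx]
  have h3 : (N : ℤ) - (D + half) + ∑ i, m0v i * x i + half = N := by
    rw [← hD]; ring
  rw [h2, h3, ext0_nat] at h1
  constructor
  · intro h6
    have h7 : D + half = 0 := by omega
    rw [h7, sub_zero, ext0_nat] at h1
    exact h1.symm
  · intro h6
    have h7 : 0 < D + half := by omega
    rw [← h1]
    rcases lt_or_ge ((N : ℤ) - (D + half)) 0 with h4 | h4
    · exact ext0_neg _ _ _ h4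
    · obtain ⟨r, hr⟩ := Int.eq_ofNat_of_zero_le h4
      rw [hr]
      have : r < N := by
        have : (r : ℤ) < N := by rw [← hr]; linarith
        exact_mod_cast this
      have h5 := hN r this m0v
      rw [← h5]
      exact ext0_nat a r m0v

/-- direction vectors -/
def v1 : Fin 15 → ℝ := fun i => if i = 0 then 2 else if i = 1 then -7 else -1
def v2 : Fin 15 → ℝ := fun i => if i = 2 then 1 else if i = 3 then -1 else 0

theorem dot_v1 (m : Fin 15 → ℤ) : ∑ i, (m i : ℝ) * v1 i = Y0 m := by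
  rw [sum15]
  have : S13 (fun i => (m i : ℝ) * v1 i) = -((S13 m : ℤ) : ℝ) := by
    simp only [S13]
    push_cast
    rw [← Finset.sum_neg_distrib]
    refine Finset.sum_congr rfl fun i _ => ?_
    have h1 : i.succ.succ ≠ (0 : Fin 15) := Fin.succ_ne_zero _
    have h2 : i.succ.succ ≠ (1 : Fin 15) := by
      intro h; exact Fin.succ_ne_zero i (Fin.succ_injective _ h)
    simp [v1, h1, h2]
  rw [this]
  simp [v1, Y0]
  ring

theorem dot_v2 (m : Fin 15 → ℤ) : ∑ i, (m i : ℝ) * v2 i = ((m 2 - m 3 : ℤ) : ℝ) := by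
  simp [v2, Fin.sum_univ_succ]
  ring

theorem form_v1 : L15.form v1 v1 = 2 := by
  rw [L15_form]
  have h1 : S13 v1 = -13 := by
    simp [S13, v1, Fin.sum_univ_succ]
    norm_num
  have h2 : D13 v1 v1 = 13 := by
    simp [D13, v1, Fin.sum_univ_succ]
    norm_num
  rw [h1, h2]
  simp [v1]
  norm_num

theorem form_v2 : L15.form v2 v2 = 2 := by
  rw [L15_form]
  have h1 : S13 v2 = 0 := by
    simp [S13, v2, Fin.sum_univ_succ]
  have h2 : D13 v2 v2 = 2 := by
    simp [D13, v2, Fin.sum_univ_succ]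
    norm_num
  rw [h1, h2]
  simp [v2]

open Classical in
theorem step {φ : ℍ → (Fin 15 → ℂ) → ℂ} (h : L15.IsWeakJacobi 0 φ)
    (a : ℕ × (Fin 15 → ℤ) → ℂ)
    (ha : ∀ (τ : ℍ) (z : Fin 15 → ℂ),
      HasSum (fun p : ℕ × (Fin 15 → ℤ) => a p *
        cexp (2 * π * I * ((p.1 : ℂ) * τ + ∑ i, (p.2 i : ℂ) * z i))) (φ τ z))
    (N : ℕ) (hN : ∀ N' < N, ∀ m, a (N', m) = 0) : ∀ m, a (N, m) = 0 := by
  obtain ⟨hp1, hp2, hp3⟩ := moment_relation L15 h a ha v1
  obtain ⟨-, hq2, hq3⟩ := moment_relation L15 h a ha v2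
  simp only [dot_v1, form_v1] at hp2 hp3
  simp only [dot_v2, form_v2] at hq2 hq3
  set A := a (N, m0v) with hA
  -- shape of the coefficients
  have hshape : ∀ m, a (N, m) = (if m = 0 then a (N, 0) else 0) + (if m ∈ MinSet then A else 0) := by
    intro m
    by_cases hm0 : m = 0
    · subst hm0
      have h0 : (0 : Fin 15 → ℤ) ∉ MinSet := by
        rintro ⟨h1, -⟩
        have : S13 (0 : Fin 15 → ℤ) = 0 := by simp [S13]
        rw [this] at h1
        exact absurd h1 (by decide)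
      simp [h0]
    · rcases Int.even_or_odd (S13 m) with he | ho
      · have h1 : m ∉ MinSet := fun h2 => by
          have := h2.1
          rw [← Int.not_even_iff_odd] at this
          exact this he
        rw [coeff_even h a ha N hN m hm0 he]
        simp [hm0, h1]
      · obtain ⟨h1, h2⟩ := coeff_odd h a ha N hN m ho
        by_cases hT : T4 m = 6
        · have h3 : m ∈ MinSet := ⟨ho, hT⟩
          rw [h1 hT]
          simp [hm0, h3, hA]
        · have h3 : m ∉ MinSet := fun h4 => hT h4.2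
          rw [h2 hT]
          simp [hm0, h3]
  -- summability
  have hsum : Summable fun m => a (N, m) := by
    have h1 := (ha UpperHalfPlane.I 0).summable.prod_factor N
    have h2 : ∀ m : Fin 15 → ℤ, a (N, m) * cexp (2 * π * I * ((N : ℂ) * (UpperHalfPlane.I : ℍ) +
        ∑ i, (m i : ℂ) * (0 : Fin 15 → ℂ) i)) = a (N, m) * cexp (2 * π * I * ((N : ℂ) * (UpperHalfPlane.I : ℍ))) := by
      intro m; simp
    simp only [h2] at h1
    have h3 := h1.mul_right (cexp (2 * π * I * ((N : ℂ) * (UpperHalfPlane.I : ℍ))))⁻¹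
    refine h3.congr fun m => ?_
    rw [mul_assoc, mul_inv_cancel₀ (Complex.exp_ne_zero _), mul_one]
  have hb1 : ∀ m, a (N, m) * (((Y0 m : ℤ) : ℝ) : ℂ) ^ 2 = (if m ∈ MinSet then A else 0) := by
    intro m
    rw [hshape m]
    by_cases hm0 : m = 0
    · subst hm0
      have h0 : (0 : Fin 15 → ℤ) ∉ MinSet := by
        rintro ⟨h1, -⟩
        have : S13 (0 : Fin 15 → ℤ) = 0 := by simp [S13]
        rw [this] at h1
        exact absurd h1 (by decide)
      simp [h0, Y0, S13]
    · by_cases hm : m ∈ MinSet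
      · have h1 := (MinSet_props hm).1
        have h2 : (((Y0 m : ℤ) : ℝ) : ℂ) ^ 2 = 1 := by
          have : (((Y0 m) ^ 2 : ℤ) : ℂ) = 1 := by rw [h1]; simp
          push_cast at this ⊢
          exact this
        rw [h2]
        simp [hm0, hm]
      · simp [hm0, hm]
  have hb2 : ∀ m, a (N, m) * (((m 2 - m 3 : ℤ) : ℝ) : ℂ) ^ 2 =
      (if m ∈ MinSet then A * (((m 2 - m 3 : ℤ) : ℝ) : ℂ) ^ 2 else 0) := by
    intro m
    rw [hshape m]
    by_cases hm0 : m = 0
    · subst hm0
      have h0 : (0 : Fin 15 → ℤ) ∉ MinSet := by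
        rintro ⟨h1, -⟩
        have : S13 (0 : Fin 15 → ℤ) = 0 := by simp [S13]
        rw [this] at h1
        exact absurd h1 (by decide)
      simp [h0]
    · by_cases hm : m ∈ MinSet
      · simp [hm0, hm]
      · simp [hm0, hm]
  have hcoefsq : ∀ m ∈ MinSet, ‖(((m 2 - m 3 : ℤ) : ℝ) : ℂ) ^ 2‖ ≤ 1 := by
    intro m hm
    have h1 := (MinSet_props hm).2
    have h2 : (((m 2 - m 3 : ℤ) : ℝ)) ^ 2 ≤ 1 := by exact_mod_cast h1
    rw [← Complex.ofReal_pow, Complex.norm_real, Real.norm_of_nonneg (sq_nonneg _)]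
    exact h2
  have hsA : Summable fun m : Fin 15 → ℤ => (if m ∈ MinSet then A else 0) := by
    have h1 : Summable fun m : Fin 15 → ℤ => (if m = 0 then a (N, 0) else 0) :=
      (hasSum_ite_eq (0 : Fin 15 → ℤ) (a (N, 0))).summable
    have h2 := hsum.sub h1
    refine h2.congr fun m => ?_
    rw [hshape m]
    ring
  have hsA2 : Summable fun m : Fin 15 → ℤ =>
      (if m ∈ MinSet then A * (((m 2 - m 3 : ℤ) : ℝ) : ℂ) ^ 2 else 0) := by
    refine Summable.of_norm (Summable.of_nonneg_of_le (fun m => norm_nonneg _) (fun m => ?_) hsA.norm)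
    split_ifs with hm
    · rw [norm_mul]
      have := hcoefsq m hm
      have := norm_nonneg A
      nlinarith
    · simp
  -- equality of the two moments
  have heq : ∑' m, a (N, m) * (((Y0 m : ℤ) : ℝ) : ℂ) ^ 2 =
      ∑' m, a (N, m) * (((m 2 - m 3 : ℤ) : ℝ) : ℂ) ^ 2 := by
    rcases Nat.eq_zero_or_pos N with hz | hpos
    · subst hz
      rw [hp2, hq2]
    · have h0 : ∑' m, a (0, m) = 0 := by
        have : ∀ m, a (0, m) = 0 := hN 0 hpos
        simp [this]
      rw [hp3 h0 N, hq3 h0 N]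
  simp only [hb1, hb2] at heq
  have hA0 : A = 0 := by
    by_contra hne
    have h1 : ∑' m : Fin 15 → ℤ, ((if m ∈ MinSet then A else 0) -
        (if m ∈ MinSet then A * (((m 2 - m 3 : ℤ) : ℝ) : ℂ) ^ 2 else 0)) = 0 := by
      rw [hsA.tsum_sub hsA2, heq, sub_self]
    set g : (Fin 15 → ℤ) → ℝ := fun m => if m ∈ MinSet then (1 - ((m 2 - m 3 : ℤ) : ℝ) ^ 2) else 0
      with hg
    have h2 : ∀ m : Fin 15 → ℤ, ((if m ∈ MinSet then A else 0) -
        (if m ∈ MinSet then A * (((m 2 - m 3 : ℤ) : ℝ) : ℂ) ^ 2 else 0)) = A * (g m : ℂ) := by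
      intro m
      simp only [hg]
      split_ifs
      · push_cast; ring
      · simp
    have hgs : Summable g := by
      have h3 := hsA.sub hsA2
      have h4 : Summable fun m => A * (g m : ℂ) := h3.congr fun m => by rw [← h2 m]
      have h5 := h4.mul_left A⁻¹
      have h6 : Summable fun m => (g m : ℂ) := by
        refine h5.congr fun m => ?_
        rw [← mul_assoc, inv_mul_cancel₀ hne, one_mul]
      exact Complex.summable_ofReal.mp h6
    have hgnn : ∀ m, 0 ≤ g m := by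
      intro m
      simp only [hg]
      split_ifs with hm
      · have h1 := (MinSet_props hm).2
        have h2 : (((m 2 - m 3 : ℤ) : ℝ)) ^ 2 ≤ 1 := by exact_mod_cast h1
        linarith
      · exact le_rfl
    have hgz : ∑' m, g m = 0 := by
      simp only [h2] at h1
      rw [tsum_mul_left] at h1
      have h3 := (mul_eq_zero.mp h1).resolve_left hne
      rw [← Complex.ofReal_tsum] at h3
      exact_mod_cast h3
    have h7 := (hasSum_zero_iff_of_nonneg hgnn).mp (hgz ▸ hgs.hasSum)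
    have h8 := congrFun h7 m1v
    simp only [hg, if_pos m1v_mem, Pi.zero_apply] at h8
    have h9 : m1v 2 - m1v 3 = 0 := by decide
    rw [h9] at h8
    norm_num at h8
  -- now the constant coefficient
  have hshape2 : ∀ m, a (N, m) = (if m = 0 then a (N, 0) else 0) := by
    intro m
    rw [hshape m, hA0]
    simp
  have hz : a (N, 0) = 0 := by
    have htot : ∑' m, a (N, m) = a (N, 0) := by
      have : (fun m => a (N, m)) = fun m : Fin 15 → ℤ => (if m = 0 then a (N, 0) else 0) :=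
        funext hshape2
      rw [this]
      exact (hasSum_ite_eq (0 : Fin 15 → ℤ) (a (N, 0))).tsum_eq
    rcases Nat.eq_zero_or_pos N with hz | hpos
    · subst hz
      simp only [hb1, hA0] at hp2
      rw [htot] at hp2
      simp at hp2
      exact hp2
    · rw [← htot]
      exact hp1 N (Nat.pos_iff_ne_zero.mp hpos)
  intro m
  rw [hshape2 m, hz]
  simp

/-- There is no nonzero weak Jacobi form of weight zero and index one for `L15`. -/
theorem weight_zero_vanish {φ : ℍ → (Fin 15 → ℂ) → ℂ} (h : L15.IsWeakJacobi 0 φ) :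
    ∀ τ z, φ τ z = 0 := by
  obtain ⟨a, ha⟩ := exists_coeff L15 h
  have hall : ∀ N m, a (N, m) = 0 := by
    intro N
    induction N using Nat.strong_induction_on with
    | _ N ih => exact step h a ha N ih
  intro τ z
  have h1 := ha τ z
  have h2 : (fun p : ℕ × (Fin 15 → ℤ) => a p *
        cexp (2 * π * I * ((p.1 : ℂ) * τ + ∑ i, (p.2 i : ℂ) * z i))) = fun _ => 0 := by
    funext p
    rw [show a p = 0 from hall p.1 p.2, zero_mul]
  rw [h2] at h1
  exact h1.unique hasSum_zero

end Pool.Agent.Work.MP_c5c797_nt
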