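import Pool.Agent.Work.MP_c5c797_nt.Vanish
import Pool.Agent.Work.MP_c5c797_nt.Neg

open UpperHalfPlane hiding I
open Complex ModularForm SlashInvariantForm MatrixGroups Function.Periodic Manifold
open scoped Real

namespace Pool.Agent.Work.MP_c5c797_nt

open EvenLattice

/-- The moment relations for a weak Jacobi form of negative even weight. -/
theorem moment_relation_neg {n : ℕ} (L : EvenLattice n) {k : ℤ} (hk : k = -2 ∨ k < -2)
    {φ : ℍ → (Fin n → ℂ) → ℂ} (h : L.IsWeakJacobi k φ)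
    (a : ℕ × (Fin n → ℤ) → ℂ)
    (ha : ∀ (τ : ℍ) (z : Fin n → ℂ),
      HasSum (fun p : ℕ × (Fin n → ℤ) => a p *
        cexp (2 * π * I * ((p.1 : ℂ) * τ + ∑ i, (p.2 i : ℂ) * z i))) (φ τ z))
    (v : Fin n → ℝ) :
    (∀ N, ∑' m, a (N, m) = 0) ∧
    (∀ N, N ≠ 0 ∨ k ≠ -2 → ∑' m, a (N, m) * ((∑ i, (m i : ℝ) * v i : ℝ) : ℂ) ^ 2 = 0) ∧
    (k = -2 → ∑' m, a (0, m) * ((∑ i, (m i : ℝ) * v i : ℝ) : ℂ) ^ 4 =
      (L.form v v : ℝ) / 2 * ∑' m, a (0, m) * ((∑ i, (m i : ℝ) * v i : ℝ) : ℂ) ^ 2) := by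
  have hexp : ∀ (τ w : ℂ) (p : ℕ × (Fin n → ℤ)),
      ((p.1 : ℂ) * τ + ∑ i, (p.2 i : ℂ) * (w * (v i : ℂ))) =
      ((p.1 : ℂ) * τ + ((∑ i, (p.2 i : ℝ) * v i : ℝ) : ℂ) * w) := by
    intro τ w p
    congr 1
    push_cast
    rw [Finset.sum_mul]
    refine Finset.sum_congr rfl fun i _ => by ring
  refine weight_neg_moments k hk a (fun m => ∑ i, (m i : ℝ) * v i) (L.form v v) ?_ ?_
  · intro τ w
    have h1 := (ha τ (fun i => w * (v i : ℂ))).summable
    refine h1.congr fun p => ?_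
    rw [hexp]
  · intro τ w
    have h1 := (ha τ (fun i => w * (v i : ℂ))).tsum_eq
    have h2 := (ha (ModularGroup.S • τ) (fun i => (w / τ) * (v i : ℂ))).tsum_eq
    simp only [hexp] at h1 h2
    rw [h1, h2]
    have h3 := h.modular ModularGroup.S τ (fun i => w * (v i : ℂ))
    have h10 : ((ModularGroup.S : SL(2, ℤ)) 1 0 : ℂ) = 1 := by simp [ModularGroup.S]
    have h11 : ((ModularGroup.S : SL(2, ℤ)) 1 1 : ℂ) = 0 := by simp [ModularGroup.S]
    rw [h10, h11] at h3
    simp only [one_mul, add_zero, mul_one] at h3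
    have h4 : (fun i => w / (τ : ℂ) * (v i : ℂ)) = fun i => w * (v i : ℂ) / (τ : ℂ) := by
      funext i; ring
    rw [h4, h3]
    congr 3
    have h5 : L.form (fun i => w * (v i : ℂ)) (fun i => w * (v i : ℂ)) =
        w ^ 2 * ((L.form v v : ℝ) : ℂ) := by
      unfold form
      push_cast
      rw [Finset.mul_sum]
      refine Finset.sum_congr rfl fun i _ => ?_
      rw [Finset.mul_sum]
      refine Finset.sum_congr rfl fun j _ => ?_
      ring
    rw [h5]
    ring

/-- parity of the Fourier coefficients in odd weight -/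
theorem coeff_parity {n : ℕ} (L : EvenLattice n) {k : ℤ} (hk : Odd k)
    {φ : ℍ → (Fin n → ℂ) → ℂ} (h : L.IsWeakJacobi k φ)
    (a : ℕ × (Fin n → ℤ) → ℂ)
    (ha : ∀ (τ : ℍ) (z : Fin n → ℂ),
      HasSum (fun p : ℕ × (Fin n → ℤ) => a p *
        cexp (2 * π * I * ((p.1 : ℂ) * τ + ∑ i, (p.2 i : ℂ) * z i))) (φ τ z))
    (N : ℕ) (m : Fin n → ℤ) : a (N, -m) = -a (N, m) := by
  have hodd : ∀ τ z, φ τ (-z) = -φ τ z := by
    intro τ z
    have h1 := h.modular (-1) τ z
    have h10 : (((-1 : SL(2, ℤ))) 1 0 : ℂ) = 0 := by simp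
    have h11 : (((-1 : SL(2, ℤ))) 1 1 : ℂ) = -1 := by simp
    rw [h10, h11] at h1
    have h2 : (-1 : SL(2, ℤ)) • τ = τ := by
      rw [ModularGroup.SL_neg_smul, one_smul]
    rw [h2] at h1
    simp only [zero_mul, zero_add, mul_zero, zero_div, Complex.exp_zero, mul_one] at h1
    rw [Odd.neg_one_zpow hk] at h1
    have h3 : (fun i => z i / (-1 : ℂ)) = -z := by
      funext i
      show z i / (-1 : ℂ) = -(z i)
      ring
    rw [h3] at h1
    rw [h1]; ring
  have ha' : ∀ (τ : ℍ) (z : Fin n → ℂ),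
      HasSum (fun p : ℤ × (Fin n → ℤ) => ext0 a p *
        cexp (2 * π * I * ((p.1 : ℂ) * τ + ∑ i, (p.2 i : ℂ) * z i))) (φ τ z) := by
    intro τ z
    refine hasSum_ext0 a (fun p => cexp (2 * π * I * ((p.1 : ℂ) * τ + ∑ i, (p.2 i : ℂ) * z i))) _ ?_
    simpa using ha τ z
  set e : ℤ × (Fin n → ℤ) ≃ ℤ × (Fin n → ℤ) :=
    { toFun := fun p => (p.1, -p.2)
      invFun := fun p => (p.1, -p.2)
      left_inv := fun p => by simp
      right_inv := fun p => by simp } with he
  have hneg : ∀ (τ : ℍ) (z : Fin n → ℂ),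
      HasSum (fun p : ℤ × (Fin n → ℤ) => ext0 a (e p) *
        cexp (2 * π * I * ((p.1 : ℂ) * τ + ∑ i, (p.2 i : ℂ) * z i))) (-φ τ z) := by
    intro τ z
    have h1 := (e.hasSum_iff).mpr (ha' τ (-z))
    rw [hodd] at h1
    refine h1.congr_fun fun p => ?_
    simp only [Function.comp_apply]
    congr 3
    simp [he]
  have key := double_unique (fun p => ext0 a (e p) + ext0 a p) ?_ ?_
  · have h1 := key ((N : ℤ), m)
    simp only [he, Equiv.coe_fn_mk] at h1
    rw [ext0_nat, ext0_nat] at h1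
    linear_combination h1
  · intro τ z
    have := (hneg τ z).summable.add (ha' τ z).summable
    refine this.congr fun p => ?_
    ring
  · intro τ z
    have h1 := (hneg τ z).add (ha' τ z)
    rw [neg_add_cancel] at h1
    refine (h1.congr_fun fun p => ?_).tsum_eq
    ring

theorem zero_not_mem : (0 : Fin 15 → ℤ) ∉ MinSet := by
  rintro ⟨h1, -⟩
  have : S13 (0 : Fin 15 → ℤ) = 0 := by simp [S13]
  rw [this] at h1
  exact absurd h1 (by decide)

open Classical in
theorem shape {k : ℤ} {φ : ℍ → (Fin 15 → ℂ) → ℂ} (h : L15.IsWeakJacobi k φ)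
    (a : ℕ × (Fin 15 → ℤ) → ℂ)
    (ha : ∀ (τ : ℍ) (z : Fin 15 → ℂ),
      HasSum (fun p : ℕ × (Fin 15 → ℤ) => a p *
        cexp (2 * π * I * ((p.1 : ℂ) * τ + ∑ i, (p.2 i : ℂ) * z i))) (φ τ z))
    (N : ℕ) (hN : ∀ N' < N, ∀ m, a (N', m) = 0) (m : Fin 15 → ℤ) :
    a (N, m) = (if m = 0 then a (N, 0) else 0) + (if m ∈ MinSet then a (N, m0v) else 0) := by
  by_cases hm0 : m = 0
  · subst hm0
    simp [zero_not_mem]
  · rcases Int.even_or_odd (S13 m) with he | ho
    · have h1 : m ∉ MinSet := fun h2 => by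
        have := h2.1
        rw [← Int.not_even_iff_odd] at this
        exact this he
      rw [coeff_even h a ha N hN m hm0 he]
      simp [hm0, h1]
    · obtain ⟨h1, h2⟩ := coeff_odd h a ha N hN m ho
      by_cases hT : T4 m = 6
      · have h3 : m ∈ MinSet := ⟨ho, hT⟩
        rw [h1 hT]
        simp [hm0, h3]
      · have h3 : m ∉ MinSet := fun h4 => hT h4.2
        rw [h2 hT]
        simp [hm0, h3]

theorem m0v_mem : m0v ∈ MinSet := by
  refine ⟨?_, ?_⟩
  · rw [S13_m0v]; exact odd_one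
  · unfold T4 Y0
    decide

/-- odd weight -/
theorem odd_weight_vanish {k : ℤ} (hk : Odd k) {φ : ℍ → (Fin 15 → ℂ) → ℂ}
    (h : L15.IsWeakJacobi k φ) (a : ℕ × (Fin 15 → ℤ) → ℂ)
    (ha : ∀ (τ : ℍ) (z : Fin 15 → ℂ),
      HasSum (fun p : ℕ × (Fin 15 → ℤ) => a p *
        cexp (2 * π * I * ((p.1 : ℂ) * τ + ∑ i, (p.2 i : ℂ) * z i))) (φ τ z))
    (N : ℕ) (hN : ∀ N' < N, ∀ m, a (N', m) = 0) : ∀ m, a (N, m) = 0 := by
  classical
  have hz : a (N, 0) = 0 := by
    have := coeff_parity L15 hk h a ha N 0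
    rw [neg_zero] at this
    linear_combination this / 2
  have hneg : -m0v ∈ MinSet := by
    refine ⟨?_, ?_⟩
    · have : S13 (-m0v) = -1 := by decide
      rw [this]; decide
    · unfold T4 Y0
      decide
  have hA : a (N, m0v) = 0 := by
    have h1 := coeff_parity L15 hk h a ha N m0v
    have h2 := shape h a ha N hN (-m0v)
    rw [if_pos hneg] at h2
    have h3 : -m0v ≠ 0 := fun h => zero_not_mem (h ▸ hneg)
    rw [if_neg h3, zero_add] at h2
    rw [h2] at h1
    linear_combination h1 / 2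
  intro m
  rw [shape h a ha N hN m, hz, hA]
  simp

/-- a further direction -/
noncomputable def v3 : Fin 15 → ℝ := fun i => if i = 1 then 1 / 2 else if i = 2 then 1 else 0

theorem dot_v3 (m : Fin 15 → ℤ) : ∑ i, (m i : ℝ) * v3 i = (m 2 : ℝ) + (m 1 : ℝ) / 2 := by
  simp [v3, Fin.sum_univ_succ]
  ring

theorem form_v3 : L15.form v3 v3 = 1 := by
  rw [L15_form]
  have h1 : S13 v3 = 1 := by
    simp [S13, v3, Fin.sum_univ_succ]
  have h2 : D13 v3 v3 = 1 := by
    simp [D13, v3, Fin.sum_univ_succ]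
  rw [h1, h2]
  simp [v3]
  norm_num

theorem MinSet_v3 {m : Fin 15 → ℤ} (hm : m ∈ MinSet) :
    ∃ x : ℤ, (m 2 : ℝ) + (m 1 : ℝ) / 2 = x ∧ x ^ 2 ≤ 1 := by
  obtain ⟨hodd, hT⟩ := hm
  have hev : Even (m 1) := by
    by_contra hne
    rw [Int.not_even_iff_odd] at hne
    have h1 : ∀ i : Fin 13, 1 ≤ (2 * m i.succ.succ + m 1) ^ 2 := by
      intro i
      have h2 : Odd (2 * m i.succ.succ + m 1) := by
        obtain ⟨r, hr⟩ := hne
        exact ⟨m i.succ.succ + r, by rw [hr]; ring⟩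
      have h3 : 2 * m i.succ.succ + m 1 ≠ 0 := by
        intro h0
        rw [h0] at h2
        exact absurd h2 (by decide)
      have := pow_pos (abs_pos.mpr h3) 2
      rw [sq_abs] at this
      linarith
    have h4 : (13 : ℤ) ≤ ∑ i : Fin 13, (2 * m i.succ.succ + m 1) ^ 2 := by
      calc (13 : ℤ) = ∑ _i : Fin 13, (1 : ℤ) := by simp
        _ ≤ _ := Finset.sum_le_sum fun i _ => h1 i
    unfold T4 at hT
    have := sq_nonneg (Y0 m)
    have := sq_nonneg (m 1)
    linarith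
  obtain ⟨u, hu⟩ := hev
  refine ⟨m 2 + u, ?_, ?_⟩
  · rw [hu]; push_cast; ring
  · have h0 : (2 * m (Fin.succ (Fin.succ (0 : Fin 13))) + m 1) ^ 2 ≤
        ∑ i : Fin 13, (2 * m i.succ.succ + m 1) ^ 2 :=
      Finset.single_le_sum (f := fun i : Fin 13 => (2 * m i.succ.succ + m 1) ^ 2)
        (fun i _ => sq_nonneg _) (Finset.mem_univ 0)
    have h2 : (Fin.succ (Fin.succ (0 : Fin 13)) : Fin 15) = 2 := rfl
    rw [h2] at h0
    unfold T4 at hT
    have h3 := sq_nonneg (Y0 m)
    have h4 := sq_nonneg (m 1)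
    have h5 : (2 * m 2 + m 1) ^ 2 = 4 * (m 2 + u) ^ 2 := by rw [hu]; ring
    rw [h5] at h0
    by_contra hcon
    rw [not_le] at hcon
    omega

open Classical in
theorem step_neg {k : ℤ} (hk : k = -2 ∨ k < -2) {φ : ℍ → (Fin 15 → ℂ) → ℂ}
    (h : L15.IsWeakJacobi k φ)
    (a : ℕ × (Fin 15 → ℤ) → ℂ)
    (ha : ∀ (τ : ℍ) (z : Fin 15 → ℂ),
      HasSum (fun p : ℕ × (Fin 15 → ℤ) => a p *
        cexp (2 * π * I * ((p.1 : ℂ) * τ + ∑ i, (p.2 i : ℂ) * z i))) (φ τ z))
    (N : ℕ) (hN : ∀ N' < N, ∀ m, a (N', m) = 0) : ∀ m, a (N, m) = 0 := by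
  obtain ⟨hp1, hp2, hp3⟩ := moment_relation_neg L15 hk h a ha v1
  obtain ⟨-, hq2, hq3⟩ := moment_relation_neg L15 hk h a ha v3
  simp only [dot_v1, form_v1] at hp2 hp3
  simp only [dot_v3, form_v3] at hq2 hq3
  have hshape := shape h a ha N hN
  set A := a (N, m0v) with hA
  have hsum : Summable fun m => a (N, m) := by
    have h1 := (ha UpperHalfPlane.I 0).summable.prod_factor N
    have h2 : ∀ m : Fin 15 → ℤ, a (N, m) * cexp (2 * π * I * ((N : ℂ) * (UpperHalfPlane.I : ℍ) +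
        ∑ i, (m i : ℂ) * (0 : Fin 15 → ℂ) i)) = a (N, m) * cexp (2 * π * I * ((N : ℂ) * (UpperHalfPlane.I : ℍ))) := by
      intro m; simp
    simp only [h2] at h1
    have h3 := h1.mul_right (cexp (2 * π * I * ((N : ℂ) * (UpperHalfPlane.I : ℍ))))⁻¹
    refine h3.congr fun m => ?_
    rw [mul_assoc, mul_inv_cancel₀ (Complex.exp_ne_zero _), mul_one]
  have hsA : Summable fun m : Fin 15 → ℤ => (if m ∈ MinSet then A else 0) := by
    have h1 : Summable fun m : Fin 15 → ℤ => (if m = 0 then a (N, 0) else 0) :=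
      (hasSum_ite_eq (0 : Fin 15 → ℤ) (a (N, 0))).summable
    have h2 := hsum.sub h1
    refine h2.congr fun m => ?_
    rw [hshape m]
    ring
  -- a general vanishing principle
  have hprinc : ∀ g : (Fin 15 → ℤ) → ℝ, (∀ m ∈ MinSet, 0 ≤ g m ∧ g m ≤ 1) → (0 < g m0v) →
      ∑' m : Fin 15 → ℤ, (if m ∈ MinSet then A * (g m : ℂ) else 0) = 0 → A = 0 := by
    intro g hg hg0 hz
    by_contra hne
    set G : (Fin 15 → ℤ) → ℝ := fun m => if m ∈ MinSet then g m else 0 with hG
    have h2 : ∀ m : Fin 15 → ℤ, (if m ∈ MinSet then A * (g m : ℂ) else 0) = A * (G m : ℂ) := by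
      intro m
      simp only [hG]
      split_ifs <;> simp
    have hGnn : ∀ m, 0 ≤ G m := by
      intro m
      simp only [hG]
      split_ifs with hm
      · exact (hg m hm).1
      · exact le_rfl
    have hGs : Summable G := by
      have h3 : Summable fun m => (A * (G m : ℂ)) := by
        refine Summable.of_norm (Summable.of_nonneg_of_le (fun m => norm_nonneg _) (fun m => ?_) hsA.norm)
        simp only [hG]
        split_ifs with hm
        · rw [norm_mul, Complex.norm_real, Real.norm_of_nonneg (hg m hm).1]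
          have := (hg m hm).2
          have := norm_nonneg A
          nlinarith
        · simp
      have h5 := h3.mul_left A⁻¹
      have h6 : Summable fun m => (G m : ℂ) := by
        refine h5.congr fun m => ?_
        rw [← mul_assoc, inv_mul_cancel₀ hne, one_mul]
      exact Complex.summable_ofReal.mp h6
    have hGz : ∑' m, G m = 0 := by
      simp only [h2] at hz
      rw [tsum_mul_left] at hz
      have h3 := (mul_eq_zero.mp hz).resolve_left hne
      rw [← Complex.ofReal_tsum] at h3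
      exact_mod_cast h3
    have h7 := (hasSum_zero_iff_of_nonneg hGnn).mp (hGz ▸ hGs.hasSum)
    have h8 := congrFun h7 m0v
    simp only [hG, if_pos m0v_mem, Pi.zero_apply] at h8
    linarith
  -- second moment in direction `v1`
  have hb1 : ∀ m, a (N, m) * (((Y0 m : ℤ) : ℝ) : ℂ) ^ 2 = (if m ∈ MinSet then A * ((1 : ℝ) : ℂ) else 0) := by
    intro m
    rw [hshape m]
    by_cases hm0 : m = 0
    · subst hm0
      simp [zero_not_mem, Y0, S13]
    · by_cases hm : m ∈ MinSet
      · have h1 := (MinSet_props hm).1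
        have h2 : (((Y0 m : ℤ) : ℝ) : ℂ) ^ 2 = 1 := by
          have : (((Y0 m) ^ 2 : ℤ) : ℂ) = 1 := by rw [h1]; simp
          push_cast at this ⊢
          exact this
        rw [h2]
        simp [hm0, hm]
      · simp [hm0, hm]
  have hA0 : A = 0 := by
    by_cases hc : N ≠ 0 ∨ k ≠ -2
    · have h1 := hp2 N hc
      simp only [hb1] at h1
      exact hprinc (fun _ => 1) (fun m _ => ⟨zero_le_one, le_rfl⟩) one_pos h1
    · rw [not_or, not_not, not_not] at hc
      obtain ⟨hN0, hk2⟩ := hc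
      subst hN0
      have h1 := hq3 hk2
      -- on the minimal set the second and fourth powers agree
      have hx : ∀ m ∈ MinSet, ((m 2 : ℝ) + (m 1 : ℝ) / 2) ^ 4 = ((m 2 : ℝ) + (m 1 : ℝ) / 2) ^ 2 ∧
          ((m 2 : ℝ) + (m 1 : ℝ) / 2) ^ 2 ≤ 1 := by
        intro m hm
        obtain ⟨x, hx1, hx2⟩ := MinSet_v3 hm
        rw [hx1]
        have h3 : x = -1 ∨ x = 0 ∨ x = 1 := by
          have : -1 ≤ x := by nlinarith
          have : x ≤ 1 := by nlinarith
          omega
        rcases h3 with h3 | h3 | h3 <;> rw [h3] <;> norm_num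
      have hb4 : ∀ m, a (0, m) * (((m 2 : ℝ) + (m 1 : ℝ) / 2 : ℝ) : ℂ) ^ 4 =
          (if m ∈ MinSet then A * ((((m 2 : ℝ) + (m 1 : ℝ) / 2) ^ 2 : ℝ) : ℂ) else 0) := by
        intro m
        rw [hshape m]
        by_cases hm0 : m = 0
        · subst hm0
          simp [zero_not_mem]
        · by_cases hm : m ∈ MinSet
          · rw [← (hx m hm).1]
            simp [hm0, hm]
          · simp [hm0, hm]
      have hb2 : ∀ m, a (0, m) * (((m 2 : ℝ) + (m 1 : ℝ) / 2 : ℝ) : ℂ) ^ 2 =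
          (if m ∈ MinSet then A * ((((m 2 : ℝ) + (m 1 : ℝ) / 2) ^ 2 : ℝ) : ℂ) else 0) := by
        intro m
        rw [hshape m]
        by_cases hm0 : m = 0
        · subst hm0
          simp [zero_not_mem]
        · by_cases hm : m ∈ MinSet
          · simp [hm0, hm]
          · simp [hm0, hm]
      simp only [hb4, hb2] at h1
      have h2 : ∑' m : Fin 15 → ℤ,
          (if m ∈ MinSet then A * ((((m 2 : ℝ) + (m 1 : ℝ) / 2) ^ 2 : ℝ) : ℂ) else 0) = 0 := by
        have : ((1 : ℝ) : ℂ) = 1 := by simp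
        rw [this] at h1
        linear_combination 2 * h1
      refine hprinc (fun m => ((m 2 : ℝ) + (m 1 : ℝ) / 2) ^ 2)
        (fun m hm => ⟨sq_nonneg _, (hx m hm).2⟩) ?_ h2
      have e2 : m0v 2 = 1 := by decide
      have e1 : m0v 1 = 0 := by decide
      simp only [e1, e2]
      norm_num
  have hshape2 : ∀ m, a (N, m) = (if m = 0 then a (N, 0) else 0) := by
    intro m
    rw [hshape m, hA0]
    simp
  have hz : a (N, 0) = 0 := by
    have htot : ∑' m, a (N, m) = a (N, 0) := by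
      have : (fun m => a (N, m)) = fun m : Fin 15 → ℤ => (if m = 0 then a (N, 0) else 0) :=
        funext hshape2
      rw [this]
      exact (hasSum_ite_eq (0 : Fin 15 → ℤ) (a (N, 0))).tsum_eq
    rw [← htot]
    exact hp1 N
  intro m
  rw [hshape2 m, hz]
  simp

/-- There is no nonzero weak Jacobi form of weight `k ≤ 0` and index one for `L15`. -/
theorem nonpos_weight_vanish {k : ℤ} (hk : k ≤ 0) {φ : ℍ → (Fin 15 → ℂ) → ℂ}
    (h : L15.IsWeakJacobi k φ) : ∀ τ z, φ τ z = 0 := by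
  obtain ⟨a, ha⟩ := exists_coeff L15 h
  have hall : ∀ N m, a (N, m) = 0 := by
    intro N
    induction N using Nat.strong_induction_on with
    | _ N ih =>
      rcases Int.even_or_odd k with he | ho
      · by_cases h0 : k = 0
        · subst h0
          exact step h a ha N ih
        · refine step_neg ?_ h a ha N ih
          obtain ⟨r, hr⟩ := he
          omega
      · exact odd_weight_vanish ho h a ha N ih
  intro τ z
  have h1 := ha τ z
  have h2 : (fun p : ℕ × (Fin 15 → ℤ) => a p *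
        cexp (2 * π * I * ((p.1 : ℂ) * τ + ∑ i, (p.2 i : ℂ) * z i))) = fun _ => 0 := by
    funext p
    rw [show a p = 0 from hall p.1 p.2, zero_mul]
  rw [h2] at h1
  exact h1.unique hasSum_zero

end Pool.Agent.Work.MP_c5c797_nt
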